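import Pool.Agent.H.MP_ac3185_nt.V6.Defs
import Pool.Agent.H.MP_ac3185_nt.V2.Val
import Pool.Agent.H.MP_ac3185_nt.V4.NormG

/-! The subgroup of the elements with even valuations, for the extension `LF / F`. -/

set_option autoImplicit false

open NumberField IsDedekindDomain

namespace Pool.Agent.H.MP_ac3185_nt

universe u

section rel

variable {K : Type u} [Field K] [CharZero K] (L F : IntermediateField K (AlgebraicClosure K))

/-- The algebra `LF` over `F`. -/
@[reducible] noncomputable def v6Alg :
    Algebra F (L ⊔ F : IntermediateField K (AlgebraicClosure K)) :=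
  (IntermediateField.inclusion (le_sup_right : F ≤ L ⊔ F)).toRingHom.toAlgebra

/-- The embedding of `LF` over `F` given by an automorphism over `F`. -/
noncomputable def v6Emb (g : AlgebraicClosure K ≃ₐ[K] AlgebraicClosure K)
    (hg : g ∈ F.fixingSubgroup) :
    letI := v6Alg L F
    (L ⊔ F : IntermediateField K (AlgebraicClosure K)) →ₐ[F] AlgebraicClosure K :=
  letI := v6Alg L F
  { toRingHom := (g : AlgebraicClosure K →+* AlgebraicClosure K).comp
      (algebraMap (L ⊔ F : IntermediateField K (AlgebraicClosure K)) (AlgebraicClosure K))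
    commutes' := fun x => vn_fix F x.2 hg }

omit [CharZero K] in
theorem v6_emb_bij (hT : TransOn L F.fixingSubgroup) :
    letI := v6Alg L F
    Function.Bijective fun q : (AlgebraicClosure K ≃ₐ[K] AlgebraicClosure K) ⧸ L.fixingSubgroup =>
      v6Emb L F (repG L F.fixingSubgroup q) (v4_rep L F.fixingSubgroup hT q).1 := by
  let _ := v6Alg L F
  have htow : IsScalarTower F (L ⊔ F : IntermediateField K (AlgebraicClosure K))
      (AlgebraicClosure K) := IsScalarTower.of_algebraMap_eq fun x => rfl
  constructor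
  · intro p q h
    obtain ⟨hp1, hp2⟩ := v4_rep L F.fixingSubgroup hT p
    obtain ⟨hq1, hq2⟩ := v4_rep L F.fixingSubgroup hT q
    have h1 : (repG L F.fixingSubgroup q)⁻¹ * repG L F.fixingSubgroup p ∈ L.fixingSubgroup := by
      rw [IntermediateField.mem_fixingSubgroup_iff]
      intro x hx
      have hx' : x ∈ L ⊔ F := (le_sup_left : L ≤ L ⊔ F) hx
      have h2 : repG L F.fixingSubgroup p x = repG L F.fixingSubgroup q x :=
        congrArg (fun f : (L ⊔ F : IntermediateField K (AlgebraicClosure K)) →ₐ[F]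
          AlgebraicClosure K => f ⟨x, hx'⟩) h
      rw [AlgEquiv.mul_apply, h2, ← AlgEquiv.mul_apply, inv_mul_cancel, AlgEquiv.one_apply]
    have h3 := QuotientGroup.eq.2 h1
    rw [hp2, hq2] at h3
    exact h3.symm
  · intro f
    have halg : Algebra.IsAlgebraic (L ⊔ F : IntermediateField K (AlgebraicClosure K))
      (AlgebraicClosure K) := inferInstance
    have halgF : Algebra.IsAlgebraic F (AlgebraicClosure K) := inferInstance
    obtain ⟨φ, hφ⟩ := IsAlgClosed.surjective_domRestrict_of_isAlgebraic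
      (K := F) (L := (L ⊔ F : IntermediateField K (AlgebraicClosure K)))
      (M := AlgebraicClosure K) (E := AlgebraicClosure K) f
    let s' : AlgebraicClosure K ≃ₐ[F] AlgebraicClosure K :=
      AlgEquiv.ofBijective φ (Algebra.IsAlgebraic.algHom_bijective φ)
    let s : AlgebraicClosure K ≃ₐ[K] AlgebraicClosure K := s'.restrictScalars K
    have hs : s ∈ F.fixingSubgroup := by
      rw [IntermediateField.mem_fixingSubgroup_iff]
      intro x hx
      exact s'.commutes ⟨x, hx⟩
    refine ⟨(s : (AlgebraicClosure K ≃ₐ[K] AlgebraicClosure K) ⧸ L.fixingSubgroup), ?_⟩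
    ext x
    have hx : FixG (L.fixingSubgroup ⊓ F.fixingSubgroup) (x : AlgebraicClosure K) := by
      intro t ht
      rw [← IntermediateField.fixingSubgroup_sup] at ht
      exact vn_fix (L ⊔ F) x.2 ht
    show repG L F.fixingSubgroup _ (x : AlgebraicClosure K) = f x
    rw [v4_rep_apply L F.fixingSubgroup hT hx _ hs rfl]
    exact congrArg (fun g : (L ⊔ F : IntermediateField K (AlgebraicClosure K)) →ₐ[F]
      AlgebraicClosure K => g x) hφ

theorem v6_norm [FiniteDimensional K L] [FiniteDimensional K F]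
    (hT : TransOn L F.fixingSubgroup) (a : (L ⊔ F : IntermediateField K (AlgebraicClosure K))) :
    letI := v6Alg L F
    algebraMap F (AlgebraicClosure K) (Algebra.norm F a) =
      normG L F.fixingSubgroup (a : AlgebraicClosure K) := by
  let _ := v6Alg L F
  have htow : IsScalarTower F (L ⊔ F : IntermediateField K (AlgebraicClosure K))
      (AlgebraicClosure K) := IsScalarTower.of_algebraMap_eq fun x => rfl
  have htow' : IsScalarTower K F (L ⊔ F : IntermediateField K (AlgebraicClosure K)) :=
    IsScalarTower.of_algebraMap_eq fun x => rfl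
  have hfin : FiniteDimensional F (L ⊔ F : IntermediateField K (AlgebraicClosure K)) :=
    FiniteDimensional.right K F _
  have := vn_finiteIndex L
  let _ := L.fixingSubgroup.fintypeQuotientOfFiniteIndex
  rw [Algebra.norm_eq_prod_embeddings F (AlgebraicClosure K) a, v4_norm_prod]
  exact (Fintype.prod_bijective _ (v6_emb_bij L F hT) _ _ (fun q => rfl)).symm

theorem v6_finrank [FiniteDimensional K L] [FiniteDimensional K F]
    (hT : TransOn L F.fixingSubgroup) :
    letI := v6Alg L F
    Module.finrank F (L ⊔ F : IntermediateField K (AlgebraicClosure K)) =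
      Module.finrank K L := by
  let _ := v6Alg L F
  have htow : IsScalarTower F (L ⊔ F : IntermediateField K (AlgebraicClosure K))
      (AlgebraicClosure K) := IsScalarTower.of_algebraMap_eq fun x => rfl
  have htow' : IsScalarTower K F (L ⊔ F : IntermediateField K (AlgebraicClosure K)) :=
    IsScalarTower.of_algebraMap_eq fun x => rfl
  have hfin : FiniteDimensional F (L ⊔ F : IntermediateField K (AlgebraicClosure K)) :=
    FiniteDimensional.right K F _
  have := vn_finiteIndex L
  let _ := L.fixingSubgroup.fintypeQuotientOfFiniteIndex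
  rw [← AlgHom.card F (L ⊔ F : IntermediateField K (AlgebraicClosure K)) (AlgebraicClosure K),
    ← vn_card L]
  exact (Fintype.card_of_bijective (v6_emb_bij L F hT)).symm

end rel

variable {K : Type u} [Field K] [NumberField K]

/-- As `v2_even_subgroup` (V2/Val), for the extension `LF / F`: apply `exists_even_subgroup` with
`K := F`, `M := LF`. -/
theorem v6_even_subgroup (L F : IntermediateField K (AlgebraicClosure K)) [FiniteDimensional K L]
    [FiniteDimensional K F] (hodd : Odd (Module.finrank K L)) (hT : TransOn L F.fixingSubgroup)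
    {A : Type*} [AddCommGroup A] (φ : A → (L ⊔ F : IntermediateField K (AlgebraicClosure K)))
    (h0 : ∀ P, φ P ≠ 0)
    (h1 : ∀ P, ∃ d ∈ F, normG L F.fixingSubgroup (φ P : AlgebraicClosure K) = d * d)
    (h2 : ∀ P Q, IsSquare (φ P * φ Q * φ (P + Q))) (S : Finset (HeightOneSpectrum (𝓞 F))) :
    ∃ B : AddSubgroup A, B.index ≠ 0 ∧ B.index ≤ 2 ^ excessOver L F S ∧
      ∀ P, P ∈ B ↔ ∀ v ∈ S, ∀ 𝔓, PrimeOver F 𝔓 v →
        EvenAt (L ⊔ F) 𝔓 (φ P : AlgebraicClosure K) := by
  let _ := v6Alg L F
  have htow : IsScalarTower F (L ⊔ F : IntermediateField K (AlgebraicClosure K))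
      (AlgebraicClosure K) := IsScalarTower.of_algebraMap_eq fun x => rfl
  have hnF : NumberField F := NumberField.of_module_finite K F
  have hnM : NumberField (L ⊔ F : IntermediateField K (AlgebraicClosure K)) :=
    NumberField.of_module_finite K _
  -- primes and places
  have hcomp : ∀ 𝔓 : Ideal (𝓞 (AlgebraicClosure K)),
      (𝔓.comap (algebraMap (𝓞 (L ⊔ F : IntermediateField K (AlgebraicClosure K)))
        (𝓞 (AlgebraicClosure K)))).comap
        (algebraMap (𝓞 F) (𝓞 (L ⊔ F : IntermediateField K (AlgebraicClosure K)))) =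
      𝔓.comap (algebraMap (𝓞 F) (𝓞 (AlgebraicClosure K))) := by
    intro 𝔓
    ext x
    rw [Ideal.mem_comap, Ideal.mem_comap, Ideal.mem_comap]
    rfl
  have hplace : ∀ (v : HeightOneSpectrum (𝓞 F)) (𝔓 : Ideal (𝓞 (AlgebraicClosure K))),
      PrimeOver F 𝔓 v → ∃ w : PlacesOver (L ⊔ F : IntermediateField K (AlgebraicClosure K)) v,
        PrimeOver (L ⊔ F) 𝔓 w.1 := by
    intro v 𝔓 h
    have hint : Algebra.IsIntegral (𝓞 K) (𝓞 F) := inferInstance
    have habove : Above 𝔓 (v.under (𝓞 K)) := by
      refine ⟨h.1, ?_⟩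
      rw [← plb_comap_comap F 𝔓, h.2]
      rfl
    obtain ⟨w, hw, -⟩ := exists_placeBelow (L ⊔ F) (v.under (𝓞 K)) 𝔓 habove 1
    rw [one_smul] at hw
    refine ⟨⟨w, ?_⟩, hw⟩
    rw [← hw.2, hcomp, h.2]
  have hprime : ∀ (v : HeightOneSpectrum (𝓞 F))
      (w : PlacesOver (L ⊔ F : IntermediateField K (AlgebraicClosure K)) v),
      ∃ 𝔓, PrimeOver (L ⊔ F) 𝔓 w.1 ∧ PrimeOver F 𝔓 v := by
    intro v w
    have hi := plb_integral (L ⊔ F : IntermediateField K (AlgebraicClosure K))
    have hwp : w.1.asIdeal.IsPrime := w.1.isPrime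
    obtain ⟨𝔔, hQ, hQw⟩ := Ideal.exists_ideal_over_prime_of_isIntegral_of_isDomain
      (S := 𝓞 (AlgebraicClosure K)) w.1.asIdeal (by
        rw [(RingHom.injective_iff_ker_eq_bot _).1
          (FaithfulSMul.algebraMap_injective
            (𝓞 (L ⊔ F : IntermediateField K (AlgebraicClosure K))) (𝓞 (AlgebraicClosure K)))]
        exact bot_le)
    refine ⟨𝔔, ⟨hQ, hQw⟩, hQ, ?_⟩
    rw [← hcomp, hQw]
    exact w.2
  have hcard : ∀ v : HeightOneSpectrum (𝓞 F), placeCountOver L F v =
      Nat.card (PlacesOver (L ⊔ F : IntermediateField K (AlgebraicClosure K)) v) := by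
    intro v
    unfold placeCountOver PlacesOver
    refine Nat.card_congr (Equiv.subtypeEquivRight fun w => ?_)
    constructor
    · rintro ⟨𝔓, h1, h2⟩
      rw [← h1.2, hcomp, h2.2]
    · intro h
      exact hprime v ⟨w, h⟩
  have hex : excessOver L F S = ∑ v ∈ S,
      (Nat.card (PlacesOver (L ⊔ F : IntermediateField K (AlgebraicClosure K)) v) - 1) := by
    unfold excessOver
    exact Finset.sum_congr rfl fun v _ => by rw [hcard]
  have hnorm : ∀ P, IsSquare (Algebra.norm F (φ P)) := by
    intro P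
    obtain ⟨d, hd, hdd⟩ := h1 P
    refine ⟨⟨d, hd⟩, ?_⟩
    apply (algebraMap F (AlgebraicClosure K)).injective
    rw [v6_norm L F hT, hdd]
    rfl
  have hoddF : Odd (Module.finrank F (L ⊔ F : IntermediateField K (AlgebraicClosure K))) := by
    rw [v6_finrank L F hT]
    exact hodd
  obtain ⟨B, hB0, hB, hBe⟩ := exists_even_subgroup hoddF φ h0 hnorm h2 S
  refine ⟨B, hB0, by rw [hex]; exact hB, fun P => ?_⟩
  rw [hBe]
  constructor
  · intro h v hv 𝔓 h𝔓
    obtain ⟨w, hw⟩ := hplace v 𝔓 h𝔓
    exact (evenAt_iff (L ⊔ F) hw (h0 P)).2 (h v hv w)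
  · intro h v hv w
    obtain ⟨𝔓, hw, h𝔓⟩ := hprime v w
    exact (evenAt_iff (L ⊔ F) hw (h0 P)).1 (h v hv 𝔓 h𝔓)

end Pool.Agent.H.MP_ac3185_nt
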