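import Pool.Agent.H.MP_ac3185_nt.V6.Pt

/-! Relations between the conjugates, and the points with trivial square class. -/

set_option autoImplicit false

open CategoryTheory AlgebraicGeometry NumberField IsDedekindDomain
open scoped MonObj

namespace Pool.Agent.H.MP_ac3185_nt

universe u

section split

variable {K : Type u} [Field K] (L F : IntermediateField K (AlgebraicClosure K))

theorem v6_trans_symm (hT : TransOn L F.fixingSubgroup) : TransOn F L.fixingSubgroup := by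
  intro s
  obtain ⟨t, ht, hts⟩ := hT s⁻¹
  refine ⟨s * t, ?_, ?_⟩
  · have h1 := inv_mem hts
    rwa [mul_inv_rev, inv_inv, inv_inv] at h1
  · have h2 : (s * t)⁻¹ * s = t⁻¹ := by group
    rw [h2]
    exact inv_mem ht

variable {B C : Over (Spec (.of K))} [GrpObj B] [IsAbVar B] [GrpObj C] [IsAbVar C]
  {f : B ⟶ C} {H : AddSubgroup (Pts B (AlgebraicClosure K))}

/-- The automorphisms which act trivially on the kernel. -/
noncomputable def v6Triv (f : B ⟶ C) :
    Subgroup (AlgebraicClosure K ≃ₐ[K] AlgebraicClosure K) where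
  carrier := {s | ∀ x, onPts f x = 0 → act B s x = x}
  one_mem' := fun x _ => v2s_act_one B x
  mul_mem' := by
    intro s t hs ht x hx
    rw [v2s_act_mul, ht x hx, hs x hx]
  inv_mem' := by
    intro s hs x hx
    have h1 : act B s⁻¹ (act B s x) = x := by
      rw [← v2s_act_mul, inv_mul_cancel, v2s_act_one]
    rwa [hs x hx] at h1

theorem v6_triv_conj [CharZero K] (hf : IsMonHom f)
    {s w : AlgebraicClosure K ≃ₐ[K] AlgebraicClosure K} (hw : w ∈ v6Triv f) :
    s * w * s⁻¹ ∈ v6Triv f := by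
  intro x hx
  rw [v2s_act_mul, v2s_act_mul, hw _ (v6_ker_act hf hx s⁻¹), ← v2s_act_mul, mul_inv_cancel,
    v2s_act_one]

/-- `L` and `F` are linearly disjoint. -/
theorem v6_lin (hf : FrameIso F f H)
    (hlin : ∀ s, ∃ t ∈ L.fixingSubgroup, ∀ x, onPts f x = 0 → act B (t⁻¹ * s) x = x) :
    TransOn L F.fixingSubgroup := by
  intro s
  obtain ⟨t, ht, hw⟩ := hlin s⁻¹
  have h1 : t⁻¹ * s⁻¹ ∈ F.fixingSubgroup := hf.sub _ hw
  refine ⟨(t⁻¹ * s⁻¹)⁻¹, inv_mem h1, ?_⟩
  have h2 : ((t⁻¹ * s⁻¹)⁻¹)⁻¹ * s = t⁻¹ := by group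
  rw [h2]
  exact inv_mem ht

variable [CharZero K]

/-- The sign of `(w s) β - β`. -/
theorem v6_sg_coset (hf : FrameIso F f H) {Q : Pts C (AlgebraicClosure K)}
    {β : Pts B (AlgebraicClosure K)} (hβ : onPts f β = Q)
    (hQ : ∀ s ∈ L.fixingSubgroup, act C s Q = Q)
    (s w : AlgebraicClosure K ≃ₐ[K] AlgebraicClosure K) (hs : s ∈ L.fixingSubgroup)
    (hw : w ∈ L.fixingSubgroup) (hwF : w ∈ F.fixingSubgroup) :
    sgH H (act B (w * s) β - β) = sgH H (act B s β - β) * sgH H (act B w β - β) := by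
  have := hf.hom
  have hker : ∀ s ∈ L.fixingSubgroup, onPts f (act B s β - β) = 0 := by
    intro s hs
    rw [v2s_onPts_sub, ← vc_onPts_act, hβ, hQ s hs, sub_self]
  rw [v6_act_diff, sgH_add hf (v6_ker_act hf.hom (hker s hs) w) (hker w hw), sgH_act hf hwF]

/-- The product of the signs of `g⁻¹ x` over a relation is `1`. -/
theorem v6_even_prod (hf : FrameIso F f H)
    [Fintype ((AlgebraicClosure K ≃ₐ[K] AlgebraicClosure K) ⧸ F.fixingSubgroup)]
    (Ω : Finset ((AlgebraicClosure K ≃ₐ[K] AlgebraicClosure K) ⧸ F.fixingSubgroup))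
    (τ : (AlgebraicClosure K ≃ₐ[K] AlgebraicClosure K) ⧸ F.fixingSubgroup →
      AlgebraicClosure K ≃ₐ[K] AlgebraicClosure K)
    (hτ : ∀ q, (τ q : (AlgebraicClosure K ≃ₐ[K] AlgebraicClosure K) ⧸ F.fixingSubgroup) = q)
    (x : Pts B (AlgebraicClosure K)) (hΩ : Even (↑Ω ∩ shadow F H x).ncard) :
    ∏ q ∈ Ω, sgH H (act B (τ q)⁻¹ x) = 1 := by
  classical
  have h1 : ∀ q, sgH H (act B (τ q)⁻¹ x) = if q ∈ shadow F H x then (-1 : AlgebraicClosure K)
      else 1 := by
    intro q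
    have h2 := v6_mem_shadow hf x (τ q)
    rw [hτ] at h2
    by_cases h3 : act B (τ q)⁻¹ x ∈ H
    · rw [sgH_mem h3, if_neg (fun h => h2.1 h h3)]
    · rw [sgH_not h3, if_pos (h2.2 h3)]
  rw [Finset.prod_congr rfl fun q _ => h1 q, Finset.prod_ite, Finset.prod_const_one, mul_one,
    Finset.prod_const]
  have h5 : (Ω.filter fun q => q ∈ shadow F H x).card = (↑Ω ∩ shadow F H x).ncard := by
    rw [← Set.ncard_coe_finset]
    congr 1
    ext q
    simp
  rw [h5]
  exact hΩ.neg_one_pow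

/-- The product of the conjugates of `u²` over a relation is a square. -/
theorem v6_rel [FiniteDimensional K F] (hT : TransOn L F.fixingSubgroup)
    (hf : FrameIso F f H)
    (Ω : Set ((AlgebraicClosure K ≃ₐ[K] AlgebraicClosure K) ⧸ F.fixingSubgroup))
    (hΩ : ∀ x, onPts f x = 0 → Even (Ω ∩ shadow F H x).ncard) {Q : Pts C (AlgebraicClosure K)}
    {β : Pts B (AlgebraicClosure K)} {u : AlgebraicClosure K} (hβ : onPts f β = Q)
    (hQ : ∀ s ∈ L.fixingSubgroup, act C s Q = Q)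
    (hu : ∀ s ∈ L.fixingSubgroup, s ∈ F.fixingSubgroup → s u = sgH H (act B s β - β) * u) :
    ∃ d : AlgebraicClosure K, (∀ s ∈ L.fixingSubgroup, (∀ q ∈ Ω, s • q ∈ Ω) → s d = d) ∧
      ∏ᶠ q ∈ Ω, repG F L.fixingSubgroup q (u * u) = d * d := by
  classical
  have hfi := vn_finiteIndex F
  let _ := F.fixingSubgroup.fintypeQuotientOfFiniteIndex
  have := hf.hom
  have hT' := v6_trans_symm L F hT
  set τ := repG F L.fixingSubgroup with hτ
  have hτL : ∀ q, τ q ∈ L.fixingSubgroup := fun q => (v4_rep F L.fixingSubgroup hT' q).1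
  have hτq : ∀ q, (τ q : (AlgebraicClosure K ≃ₐ[K] AlgebraicClosure K) ⧸ F.fixingSubgroup) = q :=
    fun q => (v4_rep F L.fixingSubgroup hT' q).2
  have hker : ∀ s ∈ L.fixingSubgroup, onPts f (act B s β - β) = 0 := by
    intro s hs
    rw [v2s_onPts_sub, ← vc_onPts_act, hβ, hQ s hs, sub_self]
  have hΩ' : (↑Ω.toFinset : Set _) = Ω := Set.coe_toFinset Ω
  refine ⟨∏ q ∈ Ω.toFinset, τ q u, ?_, ?_⟩
  swap
  · rw [finprod_mem_eq_toFinset_prod, ← Finset.prod_mul_distrib]
    exact Finset.prod_congr rfl fun q _ => map_mul (τ q) u u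
  intro s hs hsΩ
  rw [map_prod]
  let w : (AlgebraicClosure K ≃ₐ[K] AlgebraicClosure K) ⧸ F.fixingSubgroup →
    AlgebraicClosure K ≃ₐ[K] AlgebraicClosure K := fun q => (τ (s • q))⁻¹ * (s * τ q)
  have hsw : ∀ q, s * τ q = τ (s • q) * w q := fun q => by
    show s * τ q = τ (s • q) * ((τ (s • q))⁻¹ * (s * τ q))
    rw [mul_inv_cancel_left]
  have hwF : ∀ q, w q ∈ F.fixingSubgroup := by
    intro q
    show (τ (s • q))⁻¹ * (s * τ q) ∈ F.fixingSubgroup
    have h1 : ((s * τ q : AlgebraicClosure K ≃ₐ[K] AlgebraicClosure K) :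
        (AlgebraicClosure K ≃ₐ[K] AlgebraicClosure K) ⧸ F.fixingSubgroup) = s • q := by
      rw [← smul_eq_mul, ← MulAction.Quotient.smul_coe, hτq]
    rw [← QuotientGroup.eq, hτq, h1]
  have hwL : ∀ q, w q ∈ L.fixingSubgroup := fun q =>
    mul_mem (inv_mem (hτL _)) (mul_mem hs (hτL q))
  have h1 : ∀ q, s (τ q u) = sgH H (act B (w q) β - β) * τ (s • q) u := by
    intro q
    rw [← AlgEquiv.mul_apply, hsw, AlgEquiv.mul_apply, hu _ (hwL q) (hwF q), map_mul, sgH_gal]
  -- reindexing over `Ω`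
  have himg : Ω.toFinset.image (fun q => s • q) = Ω.toFinset := by
    apply Finset.eq_of_subset_of_card_le
    · intro q hq
      obtain ⟨q', hq', rfl⟩ := Finset.mem_image.1 hq
      exact Set.mem_toFinset.2 (hsΩ q' (Set.mem_toFinset.1 hq'))
    · rw [Finset.card_image_of_injective _ (MulAction.injective s)]
  have hre : ∀ φ : (AlgebraicClosure K ≃ₐ[K] AlgebraicClosure K) ⧸ F.fixingSubgroup →
      AlgebraicClosure K, ∏ q ∈ Ω.toFinset, φ (s • q) = ∏ q ∈ Ω.toFinset, φ q := by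
    intro φ
    conv_rhs => rw [← himg]
    rw [Finset.prod_image fun _ _ _ _ h => MulAction.injective s h]
  -- the signs
  let y := act B s β - β
  have h2 : ∀ q, sgH H (act B (w q) β - β) = sgH H (act B (τ (s • q))⁻¹ y) *
      (sgH H (act B (τ q)⁻¹ β - β) * sgH H (act B (τ (s • q))⁻¹ β - β)) := by
    intro q
    have h3 : (τ (s • q))⁻¹ * s = w q * (τ q)⁻¹ := by
      show (τ (s • q))⁻¹ * s = (τ (s • q))⁻¹ * (s * τ q) * (τ q)⁻¹
      group
    have h4 : act B (τ (s • q))⁻¹ y = (act B (w q * (τ q)⁻¹) β - β) -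
        (act B (τ (s • q))⁻¹ β - β) := by
      show act B (τ (s • q))⁻¹ (act B s β - β) = _
      rw [v2s_act_sub, ← v2s_act_mul, h3]
      abel
    have h5 := v6_sg_coset L F hf hβ hQ (τ q)⁻¹ (w q) (inv_mem (hτL q)) (hwL q) (hwF q)
    rw [h4, sgH_sub hf (hker _ (mul_mem (hwL q) (inv_mem (hτL q)))) (hker _ (inv_mem (hτL _))), h5]
    have h6 := sgH_mul_self (H := H) (act B (τ q)⁻¹ β - β)
    have h7 := sgH_mul_self (H := H) (act B (τ (s • q))⁻¹ β - β)
    linear_combination (-(sgH H (act B (w q) β - β)) * sgH H (act B (τ (s • q))⁻¹ β - β) *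
      sgH H (act B (τ (s • q))⁻¹ β - β)) * h6 - (sgH H (act B (w q) β - β)) * h7
  have h3 : ∏ q ∈ Ω.toFinset, sgH H (act B (w q) β - β) = 1 := by
    rw [Finset.prod_congr rfl fun q _ => h2 q, Finset.prod_mul_distrib, Finset.prod_mul_distrib]
    rw [hre (fun q => sgH H (act B (τ q)⁻¹ y)), hre (fun q => sgH H (act B (τ q)⁻¹ β - β)),
      v6_even_prod F hf Ω.toFinset τ hτq y (by rw [hΩ']; exact hΩ y (hker s hs)), one_mul,
      ← Finset.prod_mul_distrib]
    exact Finset.prod_eq_one fun q _ => sgH_mul_self _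
  rw [Finset.prod_congr rfl fun q _ => h1 q, Finset.prod_mul_distrib, h3, one_mul,
    hre (fun q => τ q u)]

/-- If `s β - β` is in `H` for all `s` in `Gal(Kbar/LF)` then `f(β)` is in `C(K) + f(B(L))`. -/
theorem v6_split [FiniteDimensional K L] (hodd : Odd (Module.finrank K L))
    (hf : FrameIso F f H)
    (hlin : ∀ s, ∃ t ∈ L.fixingSubgroup, ∀ x, onPts f x = 0 → act B (t⁻¹ * s) x = x)
    {Q : Pts C (AlgebraicClosure K)}
    {β : Pts B (AlgebraicClosure K)} (hβ : onPts f β = Q)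
    (hQ : ∀ s ∈ L.fixingSubgroup, act C s Q = Q)
    (hH : ∀ s ∈ L.fixingSubgroup, s ∈ F.fixingSubgroup → act B s β - β ∈ H) :
    ∃ y0 x, (∀ s, act C s y0 = y0) ∧ (∀ s ∈ L.fixingSubgroup, act B s x = x) ∧
      Q = y0 + onPts f x := by
  classical
  have hfi := vn_finiteIndex L
  let _ := L.fixingSubgroup.fintypeQuotientOfFiniteIndex
  have := hf.hom
  have hker : ∀ s ∈ L.fixingSubgroup, onPts f (act B s β - β) = 0 := by
    intro s hs
    rw [v2s_onPts_sub, ← vc_onPts_act, hβ, hQ s hs, sub_self]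
  -- `β` is fixed by the elements which act trivially on the kernel
  have hfix : ∀ v ∈ L.fixingSubgroup, v ∈ v6Triv f → act B v β = β := by
    intro v hv hvW
    rw [← sub_eq_zero]
    refine hf.core _ (hker v hv) fun g0 => ?_
    obtain ⟨t, ht, hw⟩ := hlin g0⁻¹
    have h1 : act B g0 (act B v β - β) = act B t⁻¹ (act B v β - β) := by
      have h2 : t⁻¹ = (t⁻¹ * g0⁻¹) * g0 := by group
      rw [h2, v2s_act_mul, hw _ (v6_ker_act hf.hom (hker v hv) g0)]
    rw [h1]
    have hv' : t⁻¹ * v * t ∈ v6Triv f := by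
      have h2 := v6_triv_conj hf.hom (s := t⁻¹) hvW
      rwa [inv_inv] at h2
    have hvL : t⁻¹ * v * t ∈ L.fixingSubgroup := mul_mem (mul_mem (inv_mem ht) hv) ht
    have h3 : act B t⁻¹ (act B v β - β) = act B (t⁻¹ * v * t) β - β := by
      have h4 : act B t⁻¹ (act B v β) = act B (t⁻¹ * v * t) (act B t⁻¹ β) := by
        rw [← v2s_act_mul, ← v2s_act_mul]
        congr 1
        group
      have h5 := hv' _ (hker t⁻¹ (inv_mem ht))
      rw [v2s_act_sub] at h5
      rw [v2s_act_sub, h4]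
      have h6 : act B (t⁻¹ * v * t) (act B t⁻¹ β) =
          act B t⁻¹ β - β + act B (t⁻¹ * v * t) β := by
        rw [← h5]
        abel
      rw [h6]
      abel
    rw [h3]
    exact hH _ hvL (hf.sub _ hv')
  -- representatives which act trivially on the kernel
  have hrep : ∀ q : (AlgebraicClosure K ≃ₐ[K] AlgebraicClosure K) ⧸ L.fixingSubgroup,
      ∃ w, w ∈ v6Triv f ∧
        (w : (AlgebraicClosure K ≃ₐ[K] AlgebraicClosure K) ⧸ L.fixingSubgroup) = q := by
    intro q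
    obtain ⟨g, rfl⟩ := QuotientGroup.mk_surjective q
    obtain ⟨t, ht, hw⟩ := hlin g⁻¹
    have hw' : t⁻¹ * g⁻¹ ∈ v6Triv f := hw
    refine ⟨(t⁻¹ * g⁻¹)⁻¹, inv_mem hw', ?_⟩
    rw [QuotientGroup.eq]
    have h1 : ((t⁻¹ * g⁻¹)⁻¹)⁻¹ * g = t⁻¹ := by group
    rw [h1]
    exact inv_mem ht
  choose ρ hρW hρq using hrep
  obtain ⟨β2, hβ2⟩ : ∃ β2, β2 = ∑ q, act B (ρ q) β := ⟨_, rfl⟩
  have hf2 : onPts f β2 = ∑ q, act C (ρ q) Q := by
    rw [hβ2, v2s_onPts_sum]
    refine Finset.sum_congr rfl fun q _ => ?_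
    rw [← vc_onPts_act, hβ]
  have hf2' : ∀ s, act C s (onPts f β2) = onPts f β2 := by
    intro s
    rw [hf2]
    exact v4_trace L.fixingSubgroup ⊤ (fun s => galHom C s) (fun s s' => ptsb_galHom_mul C s s')
      ρ (fun q => Subgroup.mem_top _) hρq Q (fun s h1 _ => hQ s h1) s (Subgroup.mem_top s)
  have hcard : Fintype.card ((AlgebraicClosure K ≃ₐ[K] AlgebraicClosure K) ⧸
      L.fixingSubgroup) = Module.finrank K L := vn_card L
  have hdiff : ∀ g ∈ L.fixingSubgroup, act B g β2 - β2 = act B g β - β := by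
    intro g hg
    let w : (AlgebraicClosure K ≃ₐ[K] AlgebraicClosure K) ⧸ L.fixingSubgroup →
      AlgebraicClosure K ≃ₐ[K] AlgebraicClosure K := fun q => (ρ (g • q))⁻¹ * (g * ρ q)
    have hgw : ∀ q, g * ρ q = ρ (g • q) * w q := fun q => by
      show g * ρ q = ρ (g • q) * ((ρ (g • q))⁻¹ * (g * ρ q))
      rw [mul_inv_cancel_left]
    have hwL : ∀ q, w q ∈ L.fixingSubgroup := by
      intro q
      show (ρ (g • q))⁻¹ * (g * ρ q) ∈ L.fixingSubgroup
      have h1 : ((g * ρ q : AlgebraicClosure K ≃ₐ[K] AlgebraicClosure K) :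
          (AlgebraicClosure K ≃ₐ[K] AlgebraicClosure K) ⧸ L.fixingSubgroup) = g • q := by
        rw [← smul_eq_mul, ← MulAction.Quotient.smul_coe, hρq]
      rw [← QuotientGroup.eq, hρq, h1]
    have hwg : ∀ q, act B (w q) β = act B g β := by
      intro q
      have h1 : w q * g⁻¹ ∈ v6Triv f := by
        have h2 : w q * g⁻¹ = (ρ (g • q))⁻¹ * (g * ρ q * g⁻¹) := by
          show (ρ (g • q))⁻¹ * (g * ρ q) * g⁻¹ = _
          group
        rw [h2]
        exact mul_mem (inv_mem (hρW _)) (v6_triv_conj hf.hom (hρW q))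
      have h2 : w q * g⁻¹ ∈ L.fixingSubgroup := mul_mem (hwL q) (inv_mem hg)
      have h3 : w q = (w q * g⁻¹) * g := by group
      have h4 := h1 _ (hker g hg)
      rw [v2s_act_sub, hfix _ h2 h1] at h4
      have h5 : act B (w q) β = act B (w q * g⁻¹) (act B g β) := by
        rw [← v2s_act_mul, ← h3]
      rw [h5]
      exact sub_left_injective h4
    have h1 : ∀ q, act B g (act B (ρ q) β) = act B (ρ (g • q)) β + (act B g β - β) := by
      intro q
      have h2 := hρW (g • q) _ (hker g hg)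
      rw [v2s_act_sub] at h2
      rw [← v2s_act_mul, hgw, v2s_act_mul, hwg, ← h2]
      abel
    have e2 : ∑ q, act B (ρ (g • q)) β = ∑ q, act B (ρ q) β :=
      Equiv.sum_comp (MulAction.toPerm g) (fun q : (AlgebraicClosure K ≃ₐ[K]
        AlgebraicClosure K) ⧸ L.fixingSubgroup => act B (ρ q) β)
    rw [hβ2, v2s_act_sum, Finset.sum_congr rfl fun q _ => h1 q, Finset.sum_add_distrib, e2,
      add_sub_cancel_left, Finset.sum_const, Finset.card_univ, hcard]
    obtain ⟨k, hk⟩ := hodd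
    have h3 := v6_two hf (hker g hg)
    rw [hk, add_smul, one_smul, mul_comm, mul_smul, two_smul, h3, smul_zero, zero_add]
  refine ⟨onPts f β2, β - β2, hf2', fun s hs => ?_, ?_⟩
  · rw [v2s_act_sub]
    have h1 := hdiff s hs
    rw [sub_eq_sub_iff_sub_eq_sub]
    have h2 : act B s β2 = act B s β - β + β2 := by
      rw [← h1]
      abel
    rw [h2]
    abel
  · rw [v2s_onPts_sub, hβ]
    abel

end split

end Pool.Agent.H.MP_ac3185_nt
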