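import Pool.Agent.H.MP_ac3185_nt.V6.Gen
import Pool.Agent.H.MP_ac3185_nt.V6.Val
import Pool.Agent.H.MP_ac3185_nt.V2.Chain

/-! Counting in one step. -/

set_option autoImplicit false

open CategoryTheory AlgebraicGeometry NumberField IsDedekindDomain
open scoped MonObj

namespace Pool.Agent.H.MP_ac3185_nt

universe u

variable {K : Type u} [Field K] [NumberField K]

/-- The index of `C(K) + f(B(L))` in `C(L)`; as `v2c_step` (V2/CountA), with `LF` and `F`. -/
theorem v6_index (L F : IntermediateField K (AlgebraicClosure K)) [FiniteDimensional K L]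
    [FiniteDimensional K F] (hodd : Odd (Module.finrank K L)) (hT : TransOn L F.fixingSubgroup)
    {B C : Over (Spec (.of K))} [GrpObj B] [IsAbVar B] [GrpObj C] [IsAbVar C] (f : B ⟶ C)
    (hf : IsMonHom f) (S : Finset (HeightOneSpectrum (𝓞 F)))
    (X : Set (L ⊔ F : IntermediateField K (AlgebraicClosure K))) (n : ℕ)
    (hX : CoveredBy (L ⊔ F) X n)
    (c : Pts C (AlgebraicClosure K) → (L ⊔ F : IntermediateField K (AlgebraicClosure K)))
    (h0 : ∀ P, c P ≠ 0)
    (h1 : ∀ P, (∀ s ∈ L.fixingSubgroup, act C s P = P) →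
        ∃ d ∈ F, normG L F.fixingSubgroup (c P : AlgebraicClosure K) = d * d)
    (h2 : ∀ P Q, (∀ s ∈ L.fixingSubgroup, act C s P = P) →
        (∀ s ∈ L.fixingSubgroup, act C s Q = Q) → IsSquare (c P * c Q * c (P + Q)))
    (h3 : ∀ P, (∀ s ∈ L.fixingSubgroup, act C s P = P) → IsSquare (c P) →
        ∃ y0 x, (∀ s, act C s y0 = y0) ∧ (∀ s ∈ L.fixingSubgroup, act B s x = x) ∧
          P = y0 + onPts f x)
    (h4 : ∀ P, (∀ s ∈ L.fixingSubgroup, act C s P = P) →
      (∀ v ∈ S, ∀ 𝔓, PrimeOver F 𝔓 v → EvenAt (L ⊔ F) 𝔓 (c P : AlgebraicClosure K)) →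
        c P ∈ X) :
    (splitAdd L f hf).relIndex (fixAdd L C) ≠ 0 ∧
      (splitAdd L f hf).relIndex (fixAdd L C) ≤ n * 2 ^ excessOver L F S := by
  classical
  let D : AddSubgroup (fixAdd L C) := (splitAdd L f hf).addSubgroupOf (fixAdd L C)
  obtain ⟨E, hE0, hE, hEm⟩ := v6_even_subgroup L F hodd hT (A := fixAdd L C) (fun P => c P)
    (fun P => h0 P) (fun P => h1 P P.2) (fun P Q => h2 P Q P.2 Q.2) S
  obtain ⟨T, hT', hTX⟩ := hX
  have hpick : ∀ P : E, ∃ t : T, (t : (L ⊔ F : IntermediateField K (AlgebraicClosure K))) ≠ 0 ∧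
      IsSquare (c ((P : fixAdd L C) : Pts C (AlgebraicClosure K)) *
        (t : (L ⊔ F : IntermediateField K (AlgebraicClosure K)))) := by
    intro P
    obtain ⟨t, ht, ht0, hs⟩ := hTX _ (h4 ((P : fixAdd L C) : Pts C (AlgebraicClosure K))
      (P : fixAdd L C).2 ((hEm P).1 P.2))
    exact ⟨⟨t, ht⟩, ht0, hs⟩
  choose g hg0 hg using hpick
  have hsep : ∀ x y : E, g x = g y → (x : fixAdd L C) - y ∈ D := by
    intro x y hxy
    have e1 := hg x
    have e2 := hg y
    rw [← hxy] at e2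
    set P := ((x : fixAdd L C) : Pts C (AlgebraicClosure K)) with hP
    set Q := ((y : fixAdd L C) : Pts C (AlgebraicClosure K)) with hQ
    have hPm := (x : fixAdd L C).2
    have hQm := (y : fixAdd L C).2
    have hPQm : P - Q ∈ fixAdd L C := sub_mem hPm hQm
    have e3 := h2 (P - Q) Q hPQm hQm
    rw [sub_add_cancel] at e3
    -- the classes of `c P` and `c Q` are equal
    have e4 : IsSquare (c (P - Q)) := by
      obtain ⟨a, ha⟩ := e1
      obtain ⟨b, hb⟩ := e2
      obtain ⟨d, hd⟩ := e3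
      have ht := hg0 x
      have hcP := h0 P
      have hcQ := h0 Q
      generalize (g x : (L ⊔ F : IntermediateField K (AlgebraicClosure K))) = w0 at ha hb ht
      refine ⟨d * w0 / (a * b), ?_⟩
      have hab : a * b ≠ 0 := by
        intro h
        have h5 : (c P * w0) * (c Q * w0) = (a * b) * (a * b) := by
          rw [ha, hb]
          ring
        rw [h, mul_zero] at h5
        exact mul_ne_zero (mul_ne_zero hcP ht) (mul_ne_zero hcQ ht) h5
      have h6 : d * w0 / (a * b) * (d * w0 / (a * b)) = (d * d) * (w0 * w0) / ((a * a) * (b * b)) := by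
        field_simp
      rw [h6, ← hd, ← ha, ← hb]
      field_simp
    exact h3 (P - Q) hPQm e4
  obtain ⟨i1, i2⟩ := v2c_index D E g hsep
  have hTc : Nat.card T ≤ n := by
    rw [Nat.card_eq_fintype_card, Fintype.card_coe]
    exact hT'
  have hmul : D.relIndex E * E.index = (D ⊓ E).index := by
    rw [← AddSubgroup.inf_relIndex_right, AddSubgroup.relIndex_mul_index inf_le_right]
  have hne : (D ⊓ E).index ≠ 0 := by
    rw [← hmul]
    exact mul_ne_zero i1 hE0
  have hdvd : D.index ∣ (D ⊓ E).index := AddSubgroup.index_dvd_of_le inf_le_left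
  have hDi : D.index = (splitAdd L f hf).relIndex (fixAdd L C) := rfl
  rw [← hDi]
  refine ⟨fun h => hne (Nat.eq_zero_of_zero_dvd (h ▸ hdvd)), ?_⟩
  calc D.index ≤ (D ⊓ E).index := Nat.le_of_dvd (Nat.pos_of_ne_zero hne) hdvd
    _ = D.relIndex E * E.index := hmul.symm
    _ ≤ n * 2 ^ excessOver L F S := Nat.mul_le_mul (i2.trans hTc) hE

theorem v6_two_mem {F : IntermediateField K (AlgebraicClosure K)}
    {𝔓 : Ideal (𝓞 (AlgebraicClosure K))} {v : HeightOneSpectrum (𝓞 F)}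
    (h : PrimeOver F 𝔓 v) : (2 : 𝓞 (AlgebraicClosure K)) ∈ 𝔓 ↔ (2 : 𝓞 F) ∈ v.asIdeal := by
  rw [← h.2, Ideal.mem_comap, map_ofNat]

theorem v6_finPrime {F : IntermediateField K (AlgebraicClosure K)}
    {𝔓 : Ideal (𝓞 (AlgebraicClosure K))} {v : HeightOneSpectrum (𝓞 F)}
    (h : PrimeOver F 𝔓 v) : FinPrime 𝔓 := by
  refine ⟨h.1, ?_⟩
  rintro rfl
  apply v.ne_bot
  rw [← h.2]
  exact (RingHom.injective_iff_ker_eq_bot _).1
    (FaithfulSMul.algebraMap_injective (𝓞 F) (𝓞 (AlgebraicClosure K)))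

/-- One step. -/
theorem v6_quot (L F : IntermediateField K (AlgebraicClosure K)) [FiniteDimensional K L]
    [FiniteDimensional K F] (hodd : Odd (Module.finrank K L)) (ρ : ℕ)
    (Rel : Set (Set ((AlgebraicClosure K ≃ₐ[K] AlgebraicClosure K) ⧸ F.fixingSubgroup)))
    (T : Set (HeightOneSpectrum (𝓞 F))) (R : Set (F →+* ℂ))
    (hρ : SquareClasses (frameClasses L F Rel T R) (2 ^ ρ)) (S : Finset (HeightOneSpectrum (𝓞 F)))
    {B C : Over (Spec (.of K))} [GrpObj B] [IsAbVar B] [GrpObj C] [IsAbVar C] (f : B ⟶ C)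
    (H : AddSubgroup (Pts B (AlgebraicClosure K))) (hf : FrameAt L F Rel T R S f H) :
    QuotBound L f (ρ + excessOver L F S) := by
  obtain ⟨c, h0, h1, h1', h2, h3, h4, h5, h6⟩ := v6_gen L F hodd hf.toFrameIso hf.lin
  obtain ⟨i1, i2⟩ := v6_index L F hodd (v6_lin L F hf.toFrameIso hf.lin) f hf.hom S
    (frameClasses L F Rel T R) (2 ^ ρ)
    (v2c_covered hρ fun a ha => ha.1) c h0 h1 h2 h6 (by
      intro P hP hS
      refine ⟨h0 P, h1 P hP, fun Ω hΩ => h1' Ω (hf.rel Ω hΩ) P hP, fun v 𝔓 hv hcase => ?_,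
        fun v 𝔓 hv hv2 hvT => ?_, fun e heR he => h5 e he
          (fun s hsF hs => hf.real e s heR hsF hs) P hP⟩
      · have h𝔓 := v6_finPrime hv
        by_cases hvT : v ∈ T
        · exact h3 𝔓 (hf.etale v hvT 𝔓 hv) P hP
        · have hv2 : (2 : 𝓞 F) ∉ v.asIdeal := hcase.resolve_right hvT
          have h2' : (2 : 𝓞 (AlgebraicClosure K)) ∉ 𝔓 := fun h => hv2 ((v6_two_mem hv).1 h)
          by_cases hvS : v ∈ S
          · exact vu_unr (L ⊔ F) h𝔓 h2' (c P).2 (hS v hvS 𝔓 hv)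
          · rcases hf.away v hvS hv2 with h | h
            · exact h3 𝔓 (h 𝔓 hv) P hP
            · exact vu_unr (L ⊔ F) h𝔓 h2' (c P).2 (h4 S 𝔓 (h 𝔓 hv) P hP hS)
      · by_cases hvS : v ∈ S
        · exact hS v hvS 𝔓 hv
        · exact h4 S 𝔓 (hf.two v hvS hvT hv2 𝔓 hv) P hP hS)
  refine v2c_reps L f hf.hom _ i1 (i2.trans (le_of_eq ?_))
  rw [pow_add]

/-- Compositions. -/
theorem v6_chain (L : IntermediateField K (AlgebraicClosure K)) [FiniteDimensional K L]
    (hodd : Odd (Module.finrank K L)) (A : Over (Spec (.of K))) [GrpObj A] [IsAbVar A]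
    {B : Over (Spec (.of K))} [GrpObj B] [IsAbVar B] (h : A ⟶ B) (b : ℕ)
    (hc : FrameChain L A B h b) : QuotBound L h b := by
  induction hc with
  | refl =>
    refine ⟨{0}, by simp, fun t ht s _ => ?_, fun y hy => ⟨0, Finset.mem_singleton_self 0, 0, y,
      fun s => map_zero (galHom A s), hy, ?_⟩⟩
    · rw [Finset.mem_singleton.1 ht]
      exact map_zero (galHom A s)
    · rw [vc_onPts_id, zero_add, zero_add]
  | step h f b ρ F Rel T R S H _ hf hρ ih =>
    exact v2k_comp hf.hom ih (v6_quot L F hodd ρ Rel T R hρ S f H hf)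

end Pool.Agent.H.MP_ac3185_nt
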