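import Pool.Agent.H.MP_ac3185_nt.R.Defs

/-! Numbers of places. -/

set_option autoImplicit false

open CategoryTheory AlgebraicGeometry NumberField IsDedekindDomain
open scoped MonObj

namespace Pool.Agent.H.MP_ac3185_nt

universe u

section numberField

variable {K : Type u} [Field K] [NumberField K]

/-- The number of the places of `LF` above the finite place `v` of `F`. -/
noncomputable def placeCountOver (L F : IntermediateField K (AlgebraicClosure K))
    (v : HeightOneSpectrum (𝓞 F)) : ℕ :=
  Nat.card {w : HeightOneSpectrum (𝓞 (L ⊔ F : IntermediateField K (AlgebraicClosure K))) //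
    ∃ 𝔓, PrimeOver (L ⊔ F) 𝔓 w ∧ PrimeOver F 𝔓 v}

/-- `∑ (g_v - 1)` over the finite places `v` of `F` in `S`, where `g_v` is the number of places of
`LF` above `v`. -/
noncomputable def excessOver (L F : IntermediateField K (AlgebraicClosure K))
    (S : Finset (HeightOneSpectrum (𝓞 F))) : ℕ :=
  ∑ v ∈ S, (placeCountOver L F v - 1)

end numberField

end Pool.Agent.H.MP_ac3185_nt
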