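import Pool.Agent.H.MP_ac3185_nt.V2.Defs
import Pool.Agent.H.MP_ac3185_nt.V4.Defs
import Pool.Agent.H.MP_ac3185_nt.V6.Excess

/-! Definitions for the descent by isogenies with arbitrary kernels killed by `2`. -/

set_option autoImplicit false

open CategoryTheory AlgebraicGeometry NumberField IsDedekindDomain
open scoped MonObj

namespace Pool.Agent.H.MP_ac3185_nt

universe u

section field

variable {K : Type u} [Field K]

/-- The set of the cosets `g Gal(Kbar/F)` with `g⁻¹ x ∉ H`. -/
def shadow (F : IntermediateField K (AlgebraicClosure K)) {B : Over (Spec (.of K))} [GrpObj B]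
    [IsAbVar B] (H : AddSubgroup (Pts B (AlgebraicClosure K))) (x : Pts B (AlgebraicClosure K)) :
    Set ((AlgebraicClosure K ≃ₐ[K] AlgebraicClosure K) ⧸ F.fixingSubgroup) :=
  {q | ∃ g : AlgebraicClosure K ≃ₐ[K] AlgebraicClosure K,
    (g : (AlgebraicClosure K ≃ₐ[K] AlgebraicClosure K) ⧸ F.fixingSubgroup) = q ∧
      act B g⁻¹ x ∉ H}

/-- `f : B → C` is an isogeny over `K` with kernel `N`, and `H` is a subgroup of index at most `2` of
`N`, stable under `Gal(Kbar/F)`, whose conjugates have intersection `0` (so `N` is killed by `2`); the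
automorphisms of `Kbar` which act trivially on `N` fix `F`.
Examples: (1) `f` of degree `2`, `H = 0`, `F = K`; (2) `N` is a simple Galois module killed by `2`,
`H` any subgroup of index `2`, `F` the field fixed by its stabilizer; for instance the multiplication
by `2` on an elliptic curve without `K`-rational points of order `2`, `H = {0, t}`, `F = K(t)`;
(3) the multiplication by `2` on the Jacobian of the curve `y² = f(x)`, where `f` is irreducible of
odd degree: `F = K(α)` for a root `α` of `f`, and `H` consists of the subsets of the set of the roots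
with an even number of elements which do not contain `α`. -/
structure FrameIso (F : IntermediateField K (AlgebraicClosure K))
    {B C : Over (Spec (.of K))} [GrpObj B] [IsAbVar B] [GrpObj C] [IsAbVar C] (f : B ⟶ C)
    (H : AddSubgroup (Pts B (AlgebraicClosure K))) : Prop where
  hom : IsMonHom f
  surj : ∀ y, ∃ x, onPts f x = y
  le : ∀ x ∈ H, onPts f x = 0
  index : ∀ x y, onPts f x = 0 → onPts f y = 0 → x ∉ H → y ∉ H → x + y ∈ H
  stab : ∀ s ∈ F.fixingSubgroup, ∀ x ∈ H, act B s x ∈ H
  core : ∀ x, onPts f x = 0 → (∀ g, act B g x ∈ H) → x = 0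
  sub : ∀ s, (∀ x, onPts f x = 0 → act B s x = x) → s ∈ F.fixingSubgroup

/-- The quotient of the kernel of `f` by `H` is etale at `𝔓`: there is a homomorphism on `B(Kbar)`
which is constant on the orbits of the elements of `Gal(Kbar/F)` in the inertia group of `𝔓`, and
whose kernel meets the kernel of `f` in a subgroup of `H`. -/
def EtaleMod (F : IntermediateField K (AlgebraicClosure K)) {B C : Over (Spec (.of K))} [GrpObj B]
    [IsAbVar B] [GrpObj C] [IsAbVar C] (f : B ⟶ C) (H : AddSubgroup (Pts B (AlgebraicClosure K)))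
    (𝔓 : Ideal (𝓞 (AlgebraicClosure K))) : Prop :=
  ∃ (R : Type u) (_ : AddCommGroup R) (r : Pts B (AlgebraicClosure K) →+ R),
    (∀ s ∈ inertia K 𝔓, s ∈ F.fixingSubgroup → ∀ x, r (act B s x) = r x) ∧
      ∀ x, onPts f x = 0 → r x = 0 → x ∈ H

/-- If `f(x)` is a point of `C(L)`, and the points `s x - x` for `s` in `Gal(Kbar/LF)` lie in `H`
exactly for the `s` which fix `z`, where `a = z²` is in `LF`, and if `a` has even valuation at the
places of `LF` above the places of `F` in `S`, then `a` has even valuation at the place of `LF` below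
`𝔓`. -/
def EvenMod (L F : IntermediateField K (AlgebraicClosure K)) {B C : Over (Spec (.of K))}
    [GrpObj B] [IsAbVar B] [GrpObj C] [IsAbVar C] (f : B ⟶ C)
    (H : AddSubgroup (Pts B (AlgebraicClosure K))) (S : Finset (HeightOneSpectrum (𝓞 F)))
    (𝔓 : Ideal (𝓞 (AlgebraicClosure K))) : Prop :=
  ∀ (x : Pts B (AlgebraicClosure K)) (z : AlgebraicClosure K), z ≠ 0 → z * z ∈ L ⊔ F →
    (∀ s ∈ L.fixingSubgroup, act C s (onPts f x) = onPts f x) →
    (∀ s ∈ (L ⊔ F).fixingSubgroup, act B s x - x ∈ H ↔ s z = z) →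
    (∀ v ∈ S, ∀ 𝔔, PrimeOver F 𝔔 v → EvenAt (L ⊔ F) 𝔔 (z * z)) → EvenAt (L ⊔ F) 𝔓 (z * z)

end field

section numberField

variable {K : Type u} [Field K] [NumberField K]

/-- The `a ≠ 0` in `LF` with the following properties: the norm of `a` to `F` is a square in `F`; for
all sets `Ω` in `Rel` of cosets of `Gal(Kbar/F)` the product of the conjugates `τ a`, for the classes
in `Ω` with representatives `τ` in `Gal(Kbar/L)`, is the square of an element fixed by all `s` in
`Gal(Kbar/L)` with `s Ω = Ω` (if `Ω` is the set of all classes: the norm of `a` to `L` is a square in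
`L`); `LF(√a) / LF` is unramified at the finite places which do not lie above `2` and at those above
`T`; the valuation of `a` is even at the other places above `2`; `a` is positive at the real places of
`LF` above the embeddings of `F` in `R`. -/
def frameClasses (L F : IntermediateField K (AlgebraicClosure K))
    (Rel : Set (Set ((AlgebraicClosure K ≃ₐ[K] AlgebraicClosure K) ⧸ F.fixingSubgroup)))
    (T : Set (HeightOneSpectrum (𝓞 F))) (R : Set (F →+* ℂ)) :
    Set (L ⊔ F : IntermediateField K (AlgebraicClosure K)) :=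
  {a | a ≠ 0 ∧ (∃ d ∈ F, normG L F.fixingSubgroup (a : AlgebraicClosure K) = d * d) ∧
    (∀ Ω ∈ Rel, ∃ d : AlgebraicClosure K,
      (∀ s ∈ L.fixingSubgroup, (∀ q ∈ Ω, s • q ∈ Ω) → s d = d) ∧
      ∏ᶠ q ∈ Ω, repG F L.fixingSubgroup q (a : AlgebraicClosure K) = d * d) ∧
    (∀ v 𝔓, PrimeOver F 𝔓 v → 2 ∉ v.asIdeal ∨ v ∈ T →
      UnrAt (L ⊔ F) 𝔓 (a : AlgebraicClosure K)) ∧
    (∀ v 𝔓, PrimeOver F 𝔓 v → 2 ∈ v.asIdeal → v ∉ T →
      EvenAt (L ⊔ F) 𝔓 (a : AlgebraicClosure K)) ∧
    ∀ e : AlgebraicClosure K →+* ℂ, e.comp (algebraMap F (AlgebraicClosure K)) ∈ R →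
      (∀ x ∈ L ⊔ F, starRingEnd ℂ (e x) = e x) → ∃ t : ℝ, 0 < t ∧ e (a : AlgebraicClosure K) = t}

/-- `f : B → C` is an isogeny with `FrameIso F f H` and kernel `N`, such that: `L` is linearly
disjoint from the field generated by `N` over `K`; for all `Ω` in `Rel` and `x` in `N` the number of the
classes `g Gal(Kbar/F)` in `Ω` with `g⁻¹ x ∉ H` is even; `N / H` is etale at the places of `F` in `T`;
at the other places above `2` outside `S` its fibres are even; at the finite places outside `S` which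
do not lie above `2`, `N / H` is etale or the fibres are even; if `f(x)` is fixed by a complex
conjugation `s` in `Gal(Kbar/F)` above an embedding in `R`, then `s x - x` is in `H`. -/
structure FrameAt (L F : IntermediateField K (AlgebraicClosure K))
    (Rel : Set (Set ((AlgebraicClosure K ≃ₐ[K] AlgebraicClosure K) ⧸ F.fixingSubgroup)))
    (T : Set (HeightOneSpectrum (𝓞 F))) (R : Set (F →+* ℂ)) (S : Finset (HeightOneSpectrum (𝓞 F)))
    {B C : Over (Spec (.of K))} [GrpObj B] [IsAbVar B] [GrpObj C] [IsAbVar C] (f : B ⟶ C)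
    (H : AddSubgroup (Pts B (AlgebraicClosure K))) : Prop extends FrameIso F f H where
  lin : ∀ s, ∃ t ∈ L.fixingSubgroup, ∀ x, onPts f x = 0 → act B (t⁻¹ * s) x = x
  rel : ∀ Ω ∈ Rel, ∀ x, onPts f x = 0 → Even (Ω ∩ shadow F H x).ncard
  etale : ∀ v ∈ T, ∀ 𝔓, PrimeOver F 𝔓 v → EtaleMod F f H 𝔓
  two : ∀ v ∉ S, v ∉ T → 2 ∈ v.asIdeal → ∀ 𝔓, PrimeOver F 𝔓 v → EvenMod L F f H S 𝔓
  away : ∀ v ∉ S, 2 ∉ v.asIdeal → (∀ 𝔓, PrimeOver F 𝔓 v → EtaleMod F f H 𝔓) ∨
    ∀ 𝔓, PrimeOver F 𝔓 v → EvenMod L F f H S 𝔓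
  real : ∀ (e : AlgebraicClosure K →+* ℂ) (s : AlgebraicClosure K ≃ₐ[K] AlgebraicClosure K),
    e.comp (algebraMap F (AlgebraicClosure K)) ∈ R → s ∈ F.fixingSubgroup →
    (∀ z, e (s z) = starRingEnd ℂ (e z)) →
    ∀ x, act C s (onPts f x) = onPts f x → act B s x - x ∈ H

/-- `FrameChain L A B h b`: the homomorphism `h : A → B` is a composition of isogenies `f` over `K`
satisfying `FrameAt L F Rel T R S f H` (where `F`, `H`, `Rel`, `T`, `R`, `S` depend on `f`), and `b` is
the sum over these `f` of the numbers `ρ + ∑ (g_v - 1)`, `v ∈ S`, where `frameClasses L F Rel T R`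
consists of at most `2 ^ ρ` classes modulo squares, and `g_v` is the number of places of `LF` above the
place `v` of `F`. -/
inductive FrameChain (L : IntermediateField K (AlgebraicClosure K))
    (A : Over (Spec (.of K))) [GrpObj A] [IsAbVar A] :
    (B : Over (Spec (.of K))) → [GrpObj B] → [IsAbVar B] → (A ⟶ B) → ℕ → Prop
  | refl : FrameChain L A A (𝟙 A) 0
  | step {B C : Over (Spec (.of K))} [GrpObj B] [IsAbVar B] [GrpObj C] [IsAbVar C] (h : A ⟶ B)
      (f : B ⟶ C) (b ρ : ℕ) (F : IntermediateField K (AlgebraicClosure K)) [FiniteDimensional K F]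
      (Rel : Set (Set ((AlgebraicClosure K ≃ₐ[K] AlgebraicClosure K) ⧸ F.fixingSubgroup)))
      (T : Set (HeightOneSpectrum (𝓞 F))) (R : Set (F →+* ℂ))
      (S : Finset (HeightOneSpectrum (𝓞 F))) (H : AddSubgroup (Pts B (AlgebraicClosure K))) :
      FrameChain L A B h b → FrameAt L F Rel T R S f H →
      SquareClasses (frameClasses L F Rel T R) (2 ^ ρ) →
      FrameChain L A C (h ≫ f) (b + (ρ + excessOver L F S))

end numberField

end Pool.Agent.H.MP_ac3185_nt
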