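import Pool.Agent.H.MP_ac3185_nt.V6.Split

/-! The square class attached to a point of `C(L)`. -/

set_option autoImplicit false

open CategoryTheory AlgebraicGeometry NumberField IsDedekindDomain
open scoped MonObj

namespace Pool.Agent.H.MP_ac3185_nt

universe u

section gen

variable {K : Type u} [Field K] [CharZero K]
  {B C : Over (Spec (.of K))} [GrpObj B] [IsAbVar B] [GrpObj C] [IsAbVar C]
  {f : B ⟶ C} {H : AddSubgroup (Pts B (AlgebraicClosure K))}

/-- For an isogeny `f : B → C` as in `FrameIso` there is a function `c` from `C(L)` to `(LF)^*`,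
additive modulo squares, with values in the group of the elements whose norm to `F` is a square, and
for which the products of the conjugates over all relations are squares, such that `c(P)` is a square
only for `P` in `C(K) + f(B(L))`. -/
theorem v6_gen (L F : IntermediateField K (AlgebraicClosure K)) [FiniteDimensional K L]
    [FiniteDimensional K F] (hodd : Odd (Module.finrank K L)) (hf : FrameIso F f H)
    (hlin : ∀ s, ∃ t ∈ L.fixingSubgroup, ∀ x, onPts f x = 0 → act B (t⁻¹ * s) x = x) :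
    ∃ c : Pts C (AlgebraicClosure K) → (L ⊔ F : IntermediateField K (AlgebraicClosure K)),
      (∀ P, c P ≠ 0) ∧
      (∀ P, (∀ s ∈ L.fixingSubgroup, act C s P = P) →
        ∃ d ∈ F, normG L F.fixingSubgroup (c P : AlgebraicClosure K) = d * d) ∧
      (∀ Ω : Set ((AlgebraicClosure K ≃ₐ[K] AlgebraicClosure K) ⧸ F.fixingSubgroup),
        (∀ x, onPts f x = 0 → Even (Ω ∩ shadow F H x).ncard) →
        ∀ P, (∀ s ∈ L.fixingSubgroup, act C s P = P) → ∃ d : AlgebraicClosure K,
          (∀ s ∈ L.fixingSubgroup, (∀ q ∈ Ω, s • q ∈ Ω) → s d = d) ∧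
          ∏ᶠ q ∈ Ω, repG F L.fixingSubgroup q (c P : AlgebraicClosure K) = d * d) ∧
      (∀ P Q, (∀ s ∈ L.fixingSubgroup, act C s P = P) →
        (∀ s ∈ L.fixingSubgroup, act C s Q = Q) → IsSquare (c P * c Q * c (P + Q))) ∧
      (∀ 𝔓, EtaleMod F f H 𝔓 → ∀ P, (∀ s ∈ L.fixingSubgroup, act C s P = P) →
        UnrAt (L ⊔ F) 𝔓 (c P)) ∧
      (∀ S 𝔓, EvenMod L F f H S 𝔓 → ∀ P, (∀ s ∈ L.fixingSubgroup, act C s P = P) →
        (∀ v ∈ S, ∀ 𝔔, PrimeOver F 𝔔 v → EvenAt (L ⊔ F) 𝔔 (c P)) → EvenAt (L ⊔ F) 𝔓 (c P)) ∧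
      (∀ e : AlgebraicClosure K →+* ℂ, (∀ x ∈ L ⊔ F, starRingEnd ℂ (e x) = e x) →
        (∀ s ∈ F.fixingSubgroup, (∀ z, e (s z) = starRingEnd ℂ (e z)) →
          ∀ x, act C s (onPts f x) = onPts f x → act B s x - x ∈ H) → ∀ P,
        (∀ s ∈ L.fixingSubgroup, act C s P = P) → ∃ t : ℝ, 0 < t ∧ e (c P) = t) ∧
      (∀ P, (∀ s ∈ L.fixingSubgroup, act C s P = P) → IsSquare (c P) →
        ∃ y0 x, (∀ s, act C s y0 = y0) ∧ (∀ s ∈ L.fixingSubgroup, act B s x = x) ∧
          P = y0 + onPts f x) := by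
  classical
  have := hf.hom
  have hT := v6_lin L F hf hlin
  have hsup : ∀ s, s ∈ (L ⊔ F : IntermediateField K (AlgebraicClosure K)).fixingSubgroup ↔
      s ∈ L.fixingSubgroup ∧ s ∈ F.fixingSubgroup := by
    intro s
    rw [IntermediateField.fixingSubgroup_sup]
    exact Iff.rfl
  have hpt : ∀ P : Pts C (AlgebraicClosure K),
      ∃ (β : Pts B (AlgebraicClosure K)) (u : AlgebraicClosure K)
        (c : (L ⊔ F : IntermediateField K (AlgebraicClosure K))), c ≠ 0 ∧
        ((∀ s ∈ L.fixingSubgroup, act C s P = P) → u ≠ 0 ∧ u * u = c ∧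
          onPts f β = P + v6Tr L F C P ∧
          (∀ s ∈ L.fixingSubgroup, s ∈ F.fixingSubgroup → s u = sgH H (act B s β - β) * u) ∧
          ∃ d, FixG F.fixingSubgroup d ∧ normG L F.fixingSubgroup (u * u) = d * d) := by
    intro P
    by_cases hP : ∀ s ∈ L.fixingSubgroup, act C s P = P
    · obtain ⟨β, u, hu, hβ, hs, hd⟩ := v6_pt L F hodd hT hf P hP
      have hmem : u * u ∈ (L ⊔ F : IntermediateField K (AlgebraicClosure K)) := by
        apply vn_mem
        intro s hs'
        obtain ⟨h1, h2⟩ := (hsup s).1 hs'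
        have h3 := sgH_mul_self (H := H) (act B s β - β)
        rw [map_mul, hs s h1 h2]
        calc _ = sgH H (act B s β - β) * sgH H (act B s β - β) * (u * u) := by ring
          _ = u * u := by rw [h3, one_mul]
      refine ⟨β, u, ⟨u * u, hmem⟩, ?_, fun _ => ⟨hu, rfl, hβ, hs, hd⟩⟩
      intro h
      exact mul_ne_zero hu hu (congrArg Subtype.val h)
    · exact ⟨0, 1, 1, one_ne_zero, fun h => absurd h hP⟩
  choose β u c hc0 hall using hpt
  have hQfix : ∀ P, (∀ s ∈ L.fixingSubgroup, act C s P = P) → ∀ s ∈ L.fixingSubgroup,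
      act C s (P + v6Tr L F C P) = P + v6Tr L F C P := by
    intro P hP s hs
    rw [vc_act_add, hP s hs, v6_tr_fix L F hT P hP]
  have hH : ∀ P, (∀ s ∈ L.fixingSubgroup, act C s P = P) → ∀ s ∈ L.fixingSubgroup,
      s ∈ F.fixingSubgroup → (act B s (β P) - β P ∈ H ↔ s (u P) = u P) := by
    intro P hP s hs hs'
    obtain ⟨hu, -, -, h1, -⟩ := hall P hP
    rw [h1 s hs hs', ← sgH_eq_one]
    constructor
    · intro h
      rw [h, one_mul]
    · intro h
      exact mul_right_cancel₀ hu (by rw [h, one_mul])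
  have hsqrt : ∀ P, (∀ s ∈ L.fixingSubgroup, act C s P = P) →
      ∀ s : AlgebraicClosure K ≃ₐ[K] AlgebraicClosure K, s (u P) = u P →
      ∀ z, z * z = (c P : AlgebraicClosure K) → s z = z := by
    intro P hP s hs z hz
    obtain ⟨-, h1, -⟩ := hall P hP
    rw [← h1] at hz
    rcases mul_self_eq_mul_self_iff.1 hz with h6 | h6
    · rw [h6, hs]
    · rw [h6, map_neg, hs]
  refine ⟨c, hc0, ?_, ?_, ?_, ?_, ?_, ?_, ?_⟩
  · intro P hP
    obtain ⟨-, h1, -, -, d, hd, hN⟩ := hall P hP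
    exact ⟨d, vn_mem F hd, by rw [← h1]; exact hN⟩
  · intro Ω hΩ P hP
    obtain ⟨-, h1, h2, h3, -⟩ := hall P hP
    obtain ⟨d, hd, hN⟩ := v6_rel L F hT hf Ω hΩ h2 (hQfix P hP) h3
    exact ⟨d, hd, by rw [← h1]; exact hN⟩
  · intro P Q hP hQ
    have hPQ : ∀ s ∈ L.fixingSubgroup, act C s (P + Q) = P + Q := by
      intro s hs
      rw [vc_act_add, hP s hs, hQ s hs]
    obtain ⟨-, p1, p2, p3, -⟩ := hall P hP
    obtain ⟨-, q1, q2, q3, -⟩ := hall Q hQ
    obtain ⟨-, w1, w2, w3, -⟩ := hall (P + Q) hPQ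
    have hδ : onPts f (β P + β Q - β (P + Q)) = 0 := by
      rw [v2s_onPts_sub, vc_onPts_add, p2, q2, w2, v6_tr_add]
      abel
    have kP : ∀ s ∈ L.fixingSubgroup, onPts f (act B s (β P) - β P) = 0 := by
      intro s hs
      rw [v2s_onPts_sub, ← vc_onPts_act, p2, hQfix P hP s hs, sub_self]
    have kQ : ∀ s ∈ L.fixingSubgroup, onPts f (act B s (β Q) - β Q) = 0 := by
      intro s hs
      rw [v2s_onPts_sub, ← vc_onPts_act, q2, hQfix Q hQ s hs, sub_self]
    have kW : ∀ s ∈ L.fixingSubgroup, onPts f (act B s (β (P + Q)) - β (P + Q)) = 0 := by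
      intro s hs
      rw [v2s_onPts_sub, ← vc_onPts_act, w2, hQfix _ hPQ s hs, sub_self]
    have hmem : u P * u Q * u (P + Q) ∈ (L ⊔ F : IntermediateField K (AlgebraicClosure K)) := by
      apply vn_mem
      intro s hs
      obtain ⟨h1, h2⟩ := (hsup s).1 hs
      have h3 : act B s (β P + β Q - β (P + Q)) - (β P + β Q - β (P + Q)) =
          (act B s (β P) - β P) + (act B s (β Q) - β Q) -
            (act B s (β (P + Q)) - β (P + Q)) := by
        rw [v2s_act_sub, vc_act_add]
        abel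
      have h4 : sgH H (act B s (β P) - β P) * sgH H (act B s (β Q) - β Q) *
          sgH H (act B s (β (P + Q)) - β (P + Q)) = 1 := by
        rw [← sgH_add hf (kP s h1) (kQ s h1),
          ← sgH_sub hf (v6_ker_add hf.hom (kP s h1) (kQ s h1)) (kW s h1), ← h3,
          sgH_sub hf (v6_ker_act hf.hom hδ s) hδ, sgH_act hf h2]
        exact sgH_mul_self _
      rw [map_mul, map_mul, p3 s h1 h2, q3 s h1 h2, w3 s h1 h2]
      calc _ = sgH H (act B s (β P) - β P) * sgH H (act B s (β Q) - β Q) *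
          sgH H (act B s (β (P + Q)) - β (P + Q)) * (u P * u Q * u (P + Q)) := by ring
        _ = u P * u Q * u (P + Q) := by rw [h4, one_mul]
    refine ⟨⟨u P * u Q * u (P + Q), hmem⟩, ?_⟩
    apply Subtype.ext
    show (c P : AlgebraicClosure K) * (c Q : AlgebraicClosure K) *
      (c (P + Q) : AlgebraicClosure K) = u P * u Q * u (P + Q) * (u P * u Q * u (P + Q))
    rw [← p1, ← q1, ← w1]
    ring
  · intro 𝔓 hE P hP s hs hsL z hz
    obtain ⟨h1, h2⟩ := (hsup s).1 hsL
    obtain ⟨R, _, r, hr, hr'⟩ := hE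
    obtain ⟨-, -, p2, -⟩ := hall P hP
    have hk : onPts f (act B s (β P) - β P) = 0 := by
      rw [v2s_onPts_sub, ← vc_onPts_act, p2, hQfix P hP s h1, sub_self]
    have h3 : act B s (β P) - β P ∈ H := by
      apply hr' _ hk
      rw [map_sub, hr s hs h2, sub_self]
    exact hsqrt P hP s ((hH P hP s h1 h2).1 h3) z hz
  · intro S 𝔓 hE P hP hPS
    obtain ⟨hu, p1, p2, -⟩ := hall P hP
    have h1 := hE (β P) (u P) hu (by rw [p1]; exact (c P).2) (fun s hs => by
      rw [p2]
      exact hQfix P hP s hs) (fun s hs => hH P hP s ((hsup s).1 hs).1 ((hsup s).1 hs).2)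
      (by rw [p1]; exact hPS)
    rw [p1] at h1
    exact h1
  · intro e he hR P hP
    obtain ⟨hu, p1, p2, -⟩ := hall P hP
    obtain ⟨s, hs⟩ := v2s_conj e (fun x => he _ (algebraMap_mem _ x))
    have hsLF : s ∈ (L ⊔ F : IntermediateField K (AlgebraicClosure K)).fixingSubgroup := by
      rw [IntermediateField.mem_fixingSubgroup_iff]
      intro x hx
      apply e.injective
      rw [hs]
      exact he x hx
    obtain ⟨h1, h2⟩ := (hsup s).1 hsLF
    have h5 : act B s (β P) - β P ∈ H := by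
      apply hR s h2 hs
      rw [p2]
      exact hQfix P hP s h1
    have h6 := (hH P hP s h1 h2).1 h5
    have h7 : starRingEnd ℂ (e (u P)) = e (u P) := by
      rw [← hs, h6]
    obtain ⟨y, hy⟩ := Complex.conj_eq_iff_real.1 h7
    refine ⟨y * y, ?_, ?_⟩
    · have hy0 : y ≠ 0 := by
        intro h
        rw [h] at hy
        exact hu (e.injective (by rw [hy, map_zero]; rfl))
      exact mul_self_pos.2 hy0
    · rw [← p1, map_mul, hy]
      push_cast
      rfl
  · intro P hP hsq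
    obtain ⟨hu, p1, p2, -⟩ := hall P hP
    obtain ⟨z, hz⟩ := hsq
    have hz' : u P * u P = (z : AlgebraicClosure K) * z := by
      rw [p1]
      exact congrArg Subtype.val hz
    obtain ⟨y0, x, hy0, hx, hx'⟩ := v6_split L F hodd hf hlin p2 (hQfix P hP)
      (fun s hs hs' => by
        rw [hH P hP s hs hs']
        have hzs : s (z : AlgebraicClosure K) = z := vn_fix _ z.2 ((hsup s).2 ⟨hs, hs'⟩)
        rcases mul_self_eq_mul_self_iff.1 hz' with h6 | h6
        · rw [h6, hzs]
        · rw [h6, map_neg, hzs])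
    refine ⟨y0 - v6Tr L F C P, x, fun s => ?_, hx, ?_⟩
    · rw [v2s_act_sub, hy0, v6_tr_fix L F hT P hP]
    · have h7 : P = (P + v6Tr L F C P) - v6Tr L F C P := by abel
      rw [hx'] at h7
      rw [sub_add_eq_add_sub]
      exact h7

end gen

end Pool.Agent.H.MP_ac3185_nt
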