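import Pool.Agent.H.MP_ac3185_nt.V6.Count
import Pool.Agent.H.MP_ac3185_nt.V2.Main

/-! Growth of ranks and change of root numbers: conclusion for isogenies with `FrameAt`. -/

set_option autoImplicit false

open CategoryTheory AlgebraicGeometry NumberField IsDedekindDomain
open scoped MonObj

namespace Pool.Agent.H.MP_ac3185_nt

universe u

variable {K : Type u} [Field K] [NumberField K]

/-- The conclusions of `v2_main` follow from the bound for the index. -/
theorem v6_concl (L : IntermediateField K (AlgebraicClosure K)) [FiniteDimensional K L]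
    (hodd : Odd (Module.finrank K L))
    (A : Over (Spec (.of K))) [GrpObj A] [IsAbVar A]
    (m b : ℕ) (h : A ⟶ A) (hq : QuotBound L h b) (hmul : ∀ x, onPts h x = (2 ^ m : ℕ) • x) :
    (b < m → ¬ NewPoint A L ∧ rk A L = rk A ⊥) ∧
    (Module.Finite ℤ (Pts A L) → rk A ⊥ ≤ rk A L ∧ m * (rk A L - rk A ⊥) ≤ b) ∧
    ∀ g : ℕ, topologicalKrullDim A.left = g → ∀ W : LocalSigns K, IsRootNumbers A W →
      ∀ (T : Finset (HeightOneSpectrum (𝓞 K))) (r : HeightOneSpectrum (𝓞 K) → ℕ),
      (∀ v ∈ T, SplitTorus A v (r v) ∨ (QuadTorus A v (r v) ∧ OddRam L v) ∨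
        (EvenSign W v (r v) ∧ UnrIn L v)) →
      (∀ v ∉ T, ∀ 𝔓, Above 𝔓 v → MildAt A L 𝔓) →
        signOver W g L = (-1) ^ signChange L g T r * signOver W g ⊥ ∧
        (b < m → ((ParityFor A g W L ↔ ParityFor A g W ⊥) ↔ Even (signChange L g T r))) ∧
        (b < 2 * m → Module.Finite ℤ (Pts A L) →
          ((ParityFor A g W L ↔ ParityFor A g W ⊥) ↔
            (Odd (signChange L g T r) ↔ NewPoint A L))) := by
  refine ⟨fun hb => v2_lt L A m b hb h hmul hq, fun hMW => v2k_rank L A hMW m b h hmul hq, ?_⟩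
  intro g _ W hW T r hT hT'
  have hs := v2t_sign L hodd A g W hW T r hT hT'
  have hs1 := signOver_sign A W hW g ⊥
  refine ⟨hs, fun hb => ?_, fun hb hMW => ?_⟩
  · have h2 := (v2_lt L A m b hb h hmul hq).2
    have h3 := v2_signs (rk A ⊥) 0 (signChange L g T r) _ _ hs1 hs
    rw [add_zero, ← h2] at h3
    unfold ParityFor
    rw [← h2]
    refine h3.trans ?_
    rw [← Nat.not_even_iff_odd]
    simp
  · obtain ⟨hle, hb2⟩ := v2k_rank L A hMW m b h hmul hq
    have h0 : rk A L - rk A ⊥ < 2 := by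
      by_contra hne
      have h3 : m * 2 ≤ m * (rk A L - rk A ⊥) := Nat.mul_le_mul_left m (not_lt.1 hne)
      omega
    obtain ⟨δ, hδ⟩ : ∃ δ, rk A L = rk A ⊥ + δ := ⟨rk A L - rk A ⊥, by omega⟩
    have h3 := v2_signs (rk A ⊥) δ (signChange L g T r) _ _ hs1 hs
    unfold ParityFor
    rw [hδ]
    refine h3.trans ?_
    have h4 : Odd δ ↔ NewPoint A L := by
      constructor
      · intro ho
        by_contra hn
        have h5 := v2_not_new L A hMW hn
        have h6 : δ = 0 := by omega
        rw [h6] at ho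
        exact absurd ho (by decide)
      · rintro ⟨x, hx, hx'⟩
        have h5 : rk A L ≠ rk A ⊥ := v2k_new L A hMW x hx hx'
        have h6 : δ = 1 := by omega
        rw [h6]
        exact odd_one
    rw [h4]

/-- Let `L / K` be an extension of odd degree of number fields and `A / K` an abelian variety, such
that the multiplication by `2 ^ m` on `A` is a composition `h` of isogenies over `K` as in
`FrameChain`, with bound `b`. Then the conclusions of `v2_main` hold. -/
theorem v6_main (L : IntermediateField K (AlgebraicClosure K)) [FiniteDimensional K L]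
    (hodd : Odd (Module.finrank K L))
    (A : Over (Spec (.of K))) [GrpObj A] [IsAbVar A]
    (m b : ℕ) (h : A ⟶ A) (hh : FrameChain L A A h b) (hmul : ∀ x, onPts h x = (2 ^ m : ℕ) • x) :
    QuotBound L h b ∧
    (b < m → ¬ NewPoint A L ∧ rk A L = rk A ⊥) ∧
    (Module.Finite ℤ (Pts A L) → rk A ⊥ ≤ rk A L ∧ m * (rk A L - rk A ⊥) ≤ b) ∧
    ∀ g : ℕ, topologicalKrullDim A.left = g → ∀ W : LocalSigns K, IsRootNumbers A W →
      ∀ (T : Finset (HeightOneSpectrum (𝓞 K))) (r : HeightOneSpectrum (𝓞 K) → ℕ),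
      (∀ v ∈ T, SplitTorus A v (r v) ∨ (QuadTorus A v (r v) ∧ OddRam L v) ∨
        (EvenSign W v (r v) ∧ UnrIn L v)) →
      (∀ v ∉ T, ∀ 𝔓, Above 𝔓 v → MildAt A L 𝔓) →
        signOver W g L = (-1) ^ signChange L g T r * signOver W g ⊥ ∧
        (b < m → ((ParityFor A g W L ↔ ParityFor A g W ⊥) ↔ Even (signChange L g T r))) ∧
        (b < 2 * m → Module.Finite ℤ (Pts A L) →
          ((ParityFor A g W L ↔ ParityFor A g W ⊥) ↔
            (Odd (signChange L g T r) ↔ NewPoint A L))) := by
  have hq := v6_chain L hodd A h b hh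
  exact ⟨hq, v6_concl L hodd A m b h hq hmul⟩

end Pool.Agent.H.MP_ac3185_nt
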