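import Pool.Agent.H.MP_ac3185_nt.V6.Sign

/-! Parallel transfer: the element and the point attached to a point of `C(L)`. -/

set_option autoImplicit false

open CategoryTheory AlgebraicGeometry NumberField IsDedekindDomain
open scoped MonObj

namespace Pool.Agent.H.MP_ac3185_nt

universe u

section pt

variable {K : Type u} [Field K] [CharZero K] (L F : IntermediateField K (AlgebraicClosure K))
  {B C : Over (Spec (.of K))} [GrpObj B] [IsAbVar B] [GrpObj C] [IsAbVar C]
  {f : B ⟶ C} {H : AddSubgroup (Pts B (AlgebraicClosure K))}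

omit [CharZero K] in
theorem v6_act_diff (b : Pts B (AlgebraicClosure K))
    (s t : AlgebraicClosure K ≃ₐ[K] AlgebraicClosure K) :
    act B (s * t) b - b = act B s (act B t b - b) + (act B s b - b) := by
  rw [v2s_act_mul, v2s_act_sub]
  abel

/-- The elements `s` of `Gal(Kbar/F)` with `s b - b` in `H`. -/
noncomputable def v6Stab (hf : FrameIso F f H) (b : Pts B (AlgebraicClosure K)) :
    Subgroup (AlgebraicClosure K ≃ₐ[K] AlgebraicClosure K) where
  carrier := {s | s ∈ F.fixingSubgroup ∧ act B s b - b ∈ H}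
  one_mem' := by
    refine ⟨one_mem _, ?_⟩
    rw [v2s_act_one, sub_self]
    exact H.zero_mem
  mul_mem' := by
    rintro s t ⟨hs, hs'⟩ ⟨ht, ht'⟩
    refine ⟨mul_mem hs ht, ?_⟩
    rw [v6_act_diff]
    exact H.add_mem (hf.stab s hs _ ht') hs'
  inv_mem' := by
    rintro s ⟨hs, hs'⟩
    refine ⟨inv_mem hs, ?_⟩
    have h1 := hf.stab s⁻¹ (inv_mem hs) _ hs'
    rw [v2s_act_sub, ← v2s_act_mul, inv_mul_cancel, v2s_act_one] at h1
    have h2 := H.neg_mem h1
    rwa [neg_sub] at h2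

/-- For a point `P` of `C(L)`: a point `b` with `f(b) = P`, and the quadratic character of
`Gal(Kbar/LF)` attached to `b`. -/
theorem v6_data [FiniteDimensional K L] [FiniteDimensional K F] (hf : FrameIso F f H)
    (P : Pts C (AlgebraicClosure K)) (hP : ∀ s ∈ L.fixingSubgroup, act C s P = P) :
    ∃ (b : Pts B (AlgebraicClosure K)) (r : AlgebraicClosure K), onPts f b = P ∧ r ≠ 0 ∧
      ∀ s ∈ L.fixingSubgroup, s ∈ F.fixingSubgroup → s r = sgH H (act B s b - b) * r := by
  have hfd : FiniteDimensional K (L ⊔ F : IntermediateField K (AlgebraicClosure K)) :=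
    IntermediateField.finiteDimensional_sup L F
  have := hf.hom
  obtain ⟨b, hb⟩ := hf.surj P
  obtain ⟨E, hE, hEb⟩ := vf_finite B b
  have hker : ∀ s ∈ L.fixingSubgroup, onPts f (act B s b - b) = 0 := by
    intro s hs
    rw [v2s_onPts_sub, ← vc_onPts_act, hb, hP s hs, sub_self]
  let N := v6Stab F hf b ⊓ (L ⊔ F).fixingSubgroup
  have hsup : ∀ s ∈ (L ⊔ F).fixingSubgroup, s ∈ L.fixingSubgroup ∧ s ∈ F.fixingSubgroup := by
    intro s hs
    rw [IntermediateField.fixingSubgroup_sup] at hs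
    exact hs
  obtain ⟨r, hr, hr1, hr2⟩ := vk_kummer (L ⊔ F) E N inf_le_right (fun s hs hs' => by
      refine ⟨⟨(hsup s hs).2, ?_⟩, hs⟩
      have h1 : act B s b = b := hEb s hs'
      rw [h1, sub_self]
      exact H.zero_mem) (by
    intro s hs t ht hsN htN
    refine ⟨⟨mul_mem (hsup s hs).2 (hsup t ht).2, ?_⟩, mul_mem hs ht⟩
    rw [v6_act_diff]
    refine hf.index _ _ (v6_ker_act hf.hom (hker t (hsup t ht).1) s) (hker s (hsup s hs).1) ?_ ?_
    · intro h
      exact htN ⟨⟨(hsup t ht).2, (v6_act_mem hf (hsup s hs).2 _).1 h⟩, ht⟩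
    · intro h
      exact hsN ⟨⟨(hsup s hs).2, h⟩, hs⟩)
  refine ⟨b, r, hb, hr, fun s hs hs' => ?_⟩
  have hs2 : s ∈ (L ⊔ F).fixingSubgroup := by
    rw [IntermediateField.fixingSubgroup_sup]
    exact ⟨hs, hs'⟩
  by_cases h : act B s b - b ∈ H
  · rw [sgH_mem h, one_mul]
    exact hr1 s ⟨⟨hs', h⟩, hs2⟩
  · rw [sgH_not h, neg_mul, one_mul]
    exact hr2 s hs2 fun h' => h h'.1.2

/-- Parallel transfer from `Gal(Kbar/LF)` to `Gal(Kbar/F)`. -/
theorem v6_par (hf : FrameIso F f H)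
    [Fintype ((AlgebraicClosure K ≃ₐ[K] AlgebraicClosure K) ⧸ L.fixingSubgroup)]
    (ρ : (AlgebraicClosure K ≃ₐ[K] AlgebraicClosure K) ⧸ L.fixingSubgroup →
      AlgebraicClosure K ≃ₐ[K] AlgebraicClosure K)
    (hρ : ∀ q, ρ q ∈ F.fixingSubgroup ∧
      (ρ q : (AlgebraicClosure K ≃ₐ[K] AlgebraicClosure K) ⧸ L.fixingSubgroup) = q)
    (r : AlgebraicClosure K) (b : Pts B (AlgebraicClosure K))
    (hb : ∀ s ∈ L.fixingSubgroup, onPts f (act B s b - b) = 0)
    (h : ∀ s ∈ L.fixingSubgroup, s ∈ F.fixingSubgroup → s r = sgH H (act B s b - b) * r)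
    (g : AlgebraicClosure K ≃ₐ[K] AlgebraicClosure K) (hg : g ∈ F.fixingSubgroup) :
    g (∏ q, ρ q r) = sgH H (act B g (∑ q, act B (ρ q) b) - ∑ q, act B (ρ q) b) *
      ∏ q, ρ q r := by
  classical
  have := hf.hom
  let w : (AlgebraicClosure K ≃ₐ[K] AlgebraicClosure K) ⧸ L.fixingSubgroup →
    AlgebraicClosure K ≃ₐ[K] AlgebraicClosure K := fun q => (ρ (g • q))⁻¹ * (g * ρ q)
  have hw : ∀ q, w q ∈ L.fixingSubgroup ∧ w q ∈ F.fixingSubgroup := by
    intro q
    constructor
    · show (ρ (g • q))⁻¹ * (g * ρ q) ∈ L.fixingSubgroup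
      have h1 : ((g * ρ q : AlgebraicClosure K ≃ₐ[K] AlgebraicClosure K) :
          (AlgebraicClosure K ≃ₐ[K] AlgebraicClosure K) ⧸ L.fixingSubgroup) = g • q := by
        rw [← smul_eq_mul, ← MulAction.Quotient.smul_coe, (hρ q).2]
      rw [← QuotientGroup.eq, (hρ _).2, h1]
    · exact mul_mem (inv_mem (hρ _).1) (mul_mem hg (hρ q).1)
  have hgw : ∀ q, g * ρ q = ρ (g • q) * w q := fun q => by
    show g * ρ q = ρ (g • q) * ((ρ (g • q))⁻¹ * (g * ρ q))
    rw [mul_inv_cancel_left]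
  have h1 : ∀ q, g (ρ q r) = sgH H (act B (w q) b - b) * ρ (g • q) r := by
    intro q
    rw [← AlgEquiv.mul_apply, hgw, AlgEquiv.mul_apply, h _ (hw q).1 (hw q).2, map_mul, sgH_gal]
  have h2 : ∀ q, act B g (act B (ρ q) b) =
      act B (ρ (g • q)) b + act B (ρ (g • q)) (act B (w q) b - b) := by
    intro q
    rw [← v2s_act_mul, hgw, v2s_act_mul, v2s_act_sub]
    abel
  have e1 : ∏ q, ρ (g • q) r = ∏ q, ρ q r :=
    Equiv.prod_comp (MulAction.toPerm g) (fun q : (AlgebraicClosure K ≃ₐ[K]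
        AlgebraicClosure K) ⧸ L.fixingSubgroup => ρ q r)
  have e2 : ∑ q, act B (ρ (g • q)) b = ∑ q, act B (ρ q) b :=
    Equiv.sum_comp (MulAction.toPerm g) (fun q : (AlgebraicClosure K ≃ₐ[K]
        AlgebraicClosure K) ⧸ L.fixingSubgroup => act B (ρ q) b)
  have h3 : act B g (∑ q, act B (ρ q) b) - ∑ q, act B (ρ q) b =
      ∑ q, act B (ρ (g • q)) (act B (w q) b - b) := by
    rw [v2s_act_sum, Finset.sum_congr rfl fun q _ => h2 q, Finset.sum_add_distrib, e2,
      add_sub_cancel_left]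
  rw [h3, map_prod, Finset.prod_congr rfl fun q _ => h1 q, Finset.prod_mul_distrib, e1,
    sgH_sum hf _ _ fun q _ => v6_ker_act hf.hom (hb _ (hw q).1) _]
  congr 1
  exact Finset.prod_congr rfl fun q _ => (sgH_act hf (hρ _).1 _).symm

/-- The trace from `C(L)` to `C(K)`, with representatives in `Gal(Kbar/F)`. -/
noncomputable def v6Tr (C : Over (Spec (.of K))) [GrpObj C] [IsAbVar C]
    (P : Pts C (AlgebraicClosure K)) : Pts C (AlgebraicClosure K) :=
  ∑ᶠ q : (AlgebraicClosure K ≃ₐ[K] AlgebraicClosure K) ⧸ L.fixingSubgroup,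
    act C (repG L F.fixingSubgroup q) P

theorem v6_tr_add [FiniteDimensional K L] (P Q : Pts C (AlgebraicClosure K)) :
    v6Tr L F C (P + Q) = v6Tr L F C P + v6Tr L F C Q := by
  have hfi := vn_finiteIndex L
  let _ := L.fixingSubgroup.fintypeQuotientOfFiniteIndex
  unfold v6Tr
  rw [finsum_eq_sum_of_fintype, finsum_eq_sum_of_fintype, finsum_eq_sum_of_fintype,
    ← Finset.sum_add_distrib]
  exact Finset.sum_congr rfl fun q _ => vc_act_add C _ P Q

theorem v6_tr_fix [FiniteDimensional K L] (hT : TransOn L F.fixingSubgroup)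
    (P : Pts C (AlgebraicClosure K)) (hP : ∀ s ∈ L.fixingSubgroup, act C s P = P)
    (s : AlgebraicClosure K ≃ₐ[K] AlgebraicClosure K) :
    act C s (v6Tr L F C P) = v6Tr L F C P := by
  have hfi := vn_finiteIndex L
  let _ := L.fixingSubgroup.fintypeQuotientOfFiniteIndex
  unfold v6Tr
  rw [finsum_eq_sum_of_fintype]
  exact v4_trace L.fixingSubgroup ⊤ (fun s => galHom C s) (fun s s' => ptsb_galHom_mul C s s')
    (repG L F.fixingSubgroup) (fun q => Subgroup.mem_top _)
    (fun q => (v4_rep L F.fixingSubgroup hT q).2) P (fun s h1 _ => hP s h1) s (Subgroup.mem_top s)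

/-- The point `β` and the element `u` attached to a point of `C(L)`. -/
theorem v6_pt [FiniteDimensional K L] [FiniteDimensional K F] (hodd : Odd (Module.finrank K L))
    (hT : TransOn L F.fixingSubgroup) (hf : FrameIso F f H)
    (P : Pts C (AlgebraicClosure K)) (hP : ∀ s ∈ L.fixingSubgroup, act C s P = P) :
    ∃ (β : Pts B (AlgebraicClosure K)) (u : AlgebraicClosure K), u ≠ 0 ∧
      onPts f β = P + v6Tr L F C P ∧
      (∀ s ∈ L.fixingSubgroup, s ∈ F.fixingSubgroup → s u = sgH H (act B s β - β) * u) ∧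
      ∃ d, FixG F.fixingSubgroup d ∧ normG L F.fixingSubgroup (u * u) = d * d := by
  have hfi := vn_finiteIndex L
  let _ := L.fixingSubgroup.fintypeQuotientOfFiniteIndex
  have := hf.hom
  obtain ⟨b, r, hb, hr, h⟩ := v6_data L F hf P hP
  have hker : ∀ s ∈ L.fixingSubgroup, onPts f (act B s b - b) = 0 := by
    intro s hs
    rw [v2s_onPts_sub, ← vc_onPts_act, hb, hP s hs, sub_self]
  obtain ⟨R, hR⟩ : ∃ R, R = ∏ q, repG L F.fixingSubgroup q r := ⟨_, rfl⟩
  obtain ⟨S, hS⟩ : ∃ S, S = ∑ q, act B (repG L F.fixingSubgroup q) b := ⟨_, rfl⟩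
  have hRS : ∀ g ∈ F.fixingSubgroup, g R = sgH H (act B g S - S) * R := by
    intro g hg
    rw [hR, hS]
    exact v6_par L F hf _ (v4_rep L F.fixingSubgroup hT) r b hker h g hg
  have hnr : normG L F.fixingSubgroup r = R := by
    rw [hR]
    exact finprod_eq_prod_of_fintype _
  have hR0 : R ≠ 0 := by
    rw [← hnr]
    exact v4_norm_ne L F.fixingSubgroup hr
  have hfS : onPts f S = v6Tr L F C P := by
    unfold v6Tr
    rw [hS, v2s_onPts_sum, finsum_eq_sum_of_fintype]
    refine Finset.sum_congr rfl fun q _ => ?_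
    rw [← vc_onPts_act, hb]
  have hSker : ∀ s, onPts f (act B s S - S) = 0 := by
    intro s
    rw [v2s_onPts_sub, ← vc_onPts_act, hfS, v6_tr_fix L F hT P hP, sub_self]
  have hsg : ∀ x : Pts B (AlgebraicClosure K), sgH H x * sgH H x = 1 := sgH_mul_self
  have hNa : normG L F.fixingSubgroup (r * r) = R * R := by
    rw [v4_norm_mul, hnr]
  have hNfix : FixG F.fixingSubgroup (R * R) := by
    intro g hg
    rw [map_mul, hRS g hg]
    have h1 := hsg (act B g S - S)
    calc _ = sgH H (act B g S - S) * sgH H (act B g S - S) * (R * R) := by ring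
      _ = R * R := by rw [h1, one_mul]
  refine ⟨b + S, r * R, mul_ne_zero hr hR0, ?_, ?_, ?_⟩
  · rw [vc_onPts_add, hb, hfS]
  · intro s hs hs'
    have h1 : act B s (b + S) - (b + S) = (act B s b - b) + (act B s S - S) := by
      rw [vc_act_add]
      abel
    rw [h1, sgH_add hf (hker s hs) (hSker s), map_mul, h s hs hs', hRS s hs']
    ring
  · obtain ⟨k, hk⟩ := hodd
    refine ⟨(R * R) ^ (k + 1), fun s hs => by rw [map_pow, hNfix s hs], ?_⟩
    have h1 : r * R * (r * R) = (r * r) * (R * R) := by ring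
    rw [h1, v4_norm_mul, hNa, v4_norm_pow L F.fixingSubgroup hT hNfix, hk]
    ring

end pt

end Pool.Agent.H.MP_ac3185_nt
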