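import Pool.Agent.H.MP_ac3185_nt.V6.Defs
import Pool.Agent.H.MP_ac3185_nt.V4.StepA
import Pool.Agent.H.MP_ac3185_nt.V4.Rank

/-! The sign of a point of the kernel, modulo `H`. -/

set_option autoImplicit false

open CategoryTheory AlgebraicGeometry NumberField IsDedekindDomain
open scoped MonObj

namespace Pool.Agent.H.MP_ac3185_nt

universe u

section sign

variable {K : Type u} [Field K] [CharZero K]

open Classical in
/-- `1` on `H` and `-1` outside `H`. -/
noncomputable def sgH {B : Over (Spec (.of K))} [GrpObj B] [IsAbVar B]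
    (H : AddSubgroup (Pts B (AlgebraicClosure K))) (x : Pts B (AlgebraicClosure K)) :
    AlgebraicClosure K :=
  if x ∈ H then 1 else -1

variable {B C : Over (Spec (.of K))} [GrpObj B] [IsAbVar B] [GrpObj C] [IsAbVar C]
  {H : AddSubgroup (Pts B (AlgebraicClosure K))}

omit [CharZero K] in
theorem sgH_mem {x : Pts B (AlgebraicClosure K)} (h : x ∈ H) : sgH H x = 1 := if_pos h

omit [CharZero K] in
theorem sgH_not {x : Pts B (AlgebraicClosure K)} (h : x ∉ H) : sgH H x = -1 := if_neg h

omit [CharZero K] in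
theorem sgH_mul_self (x : Pts B (AlgebraicClosure K)) : sgH H x * sgH H x = 1 := by
  by_cases h : x ∈ H
  · rw [sgH_mem h, one_mul]
  · rw [sgH_not h]
    ring

theorem sgH_eq_one {x : Pts B (AlgebraicClosure K)} : sgH H x = 1 ↔ x ∈ H := by
  constructor
  · intro h
    by_contra hx
    rw [sgH_not hx] at h
    exact absurd h.symm (by norm_num)
  · exact sgH_mem

omit [CharZero K] in
theorem sgH_gal (s : AlgebraicClosure K ≃ₐ[K] AlgebraicClosure K)
    (x : Pts B (AlgebraicClosure K)) : s (sgH H x) = sgH H x := by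
  by_cases h : x ∈ H
  · rw [sgH_mem h, map_one]
  · rw [sgH_not h, map_neg, map_one]

variable {F : IntermediateField K (AlgebraicClosure K)} {f : B ⟶ C}

omit [CharZero K] in
theorem sgH_neg (x : Pts B (AlgebraicClosure K)) : sgH H (-x) = sgH H x := by
  by_cases h : x ∈ H
  · rw [sgH_mem h, sgH_mem (H.neg_mem h)]
  · rw [sgH_not h, sgH_not (fun h' => h (by
      have := H.neg_mem h'
      rwa [neg_neg] at this))]

omit [CharZero K] in
/-- Multiplicativity on the kernel. -/
theorem sgH_add (hf : FrameIso F f H) {x y : Pts B (AlgebraicClosure K)} (hx : onPts f x = 0)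
    (hy : onPts f y = 0) : sgH H (x + y) = sgH H x * sgH H y := by
  by_cases h1 : x ∈ H
  · by_cases h2 : y ∈ H
    · rw [sgH_mem h1, sgH_mem h2, sgH_mem (H.add_mem h1 h2), one_mul]
    · rw [sgH_mem h1, sgH_not h2, sgH_not (fun h => h2 (by
        have := H.sub_mem h h1
        rwa [add_sub_cancel_left] at this)), one_mul]
  · by_cases h2 : y ∈ H
    · rw [sgH_not h1, sgH_mem h2, sgH_not (fun h => h1 (by
        have := H.sub_mem h h2
        rwa [add_sub_cancel_right] at this)), mul_one]
    · rw [sgH_not h1, sgH_not h2, sgH_mem (hf.index x y hx hy h1 h2)]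
      ring

theorem v6_ker_neg (hf : IsMonHom f) {x : Pts B (AlgebraicClosure K)} (hx : onPts f x = 0) :
    onPts f (-x) = 0 := by
  rw [v2s_onPts_neg, hx, neg_zero]

theorem v6_ker_add (hf : IsMonHom f) {x y : Pts B (AlgebraicClosure K)} (hx : onPts f x = 0)
    (hy : onPts f y = 0) : onPts f (x + y) = 0 := by
  rw [vc_onPts_add, hx, hy, add_zero]

theorem v6_ker_sub (hf : IsMonHom f) {x y : Pts B (AlgebraicClosure K)} (hx : onPts f x = 0)
    (hy : onPts f y = 0) : onPts f (x - y) = 0 := by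
  rw [v2s_onPts_sub, hx, hy, sub_zero]

theorem v6_ker_act (hf : IsMonHom f) {x : Pts B (AlgebraicClosure K)} (hx : onPts f x = 0)
    (s : AlgebraicClosure K ≃ₐ[K] AlgebraicClosure K) : onPts f (act B s x) = 0 := by
  rw [← vc_onPts_act, hx, v2s_act_zero]

theorem sgH_sub (hf : FrameIso F f H) {x y : Pts B (AlgebraicClosure K)} (hx : onPts f x = 0)
    (hy : onPts f y = 0) : sgH H (x - y) = sgH H x * sgH H y := by
  have := hf.hom
  rw [sub_eq_add_neg, sgH_add hf hx (v6_ker_neg hf.hom hy), sgH_neg]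

theorem sgH_sum (hf : FrameIso F f H) {I : Type*} (J : Finset I)
    (x : I → Pts B (AlgebraicClosure K)) (hx : ∀ i ∈ J, onPts f (x i) = 0) :
    sgH H (∑ i ∈ J, x i) = ∏ i ∈ J, sgH H (x i) := by
  classical
  have := hf.hom
  induction J using Finset.induction_on with
  | empty => rw [Finset.sum_empty, Finset.prod_empty, sgH_mem H.zero_mem]
  | insert i J hi ih =>
    have h1 : onPts f (∑ i ∈ J, x i) = 0 := by
      rw [v2s_onPts_sum]
      exact Finset.sum_eq_zero fun j hj => hx j (Finset.mem_insert_of_mem hj)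
    rw [Finset.sum_insert hi, Finset.prod_insert hi, sgH_add hf (hx i (Finset.mem_insert_self i J))
      h1, ih fun j hj => hx j (Finset.mem_insert_of_mem hj)]

omit [CharZero K] in
theorem v6_act_mem (hf : FrameIso F f H) {s : AlgebraicClosure K ≃ₐ[K] AlgebraicClosure K}
    (hs : s ∈ F.fixingSubgroup) (x : Pts B (AlgebraicClosure K)) : act B s x ∈ H ↔ x ∈ H := by
  constructor
  · intro h
    have h1 := hf.stab s⁻¹ (inv_mem hs) _ h
    rwa [← v2s_act_mul, inv_mul_cancel, v2s_act_one] at h1
  · exact hf.stab s hs x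

omit [CharZero K] in
theorem sgH_act (hf : FrameIso F f H) {s : AlgebraicClosure K ≃ₐ[K] AlgebraicClosure K}
    (hs : s ∈ F.fixingSubgroup) (x : Pts B (AlgebraicClosure K)) :
    sgH H (act B s x) = sgH H x := by
  by_cases h : x ∈ H
  · rw [sgH_mem h, sgH_mem ((v6_act_mem hf hs x).2 h)]
  · rw [sgH_not h, sgH_not (fun h' => h ((v6_act_mem hf hs x).1 h'))]

omit [CharZero K] in
theorem v6_mem_shadow (hf : FrameIso F f H) (x : Pts B (AlgebraicClosure K))
    (g : AlgebraicClosure K ≃ₐ[K] AlgebraicClosure K) :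
    (g : (AlgebraicClosure K ≃ₐ[K] AlgebraicClosure K) ⧸ F.fixingSubgroup) ∈ shadow F H x ↔
      act B g⁻¹ x ∉ H := by
  constructor
  · rintro ⟨g', hg', h⟩
    have h1 : g'⁻¹ * g ∈ F.fixingSubgroup := QuotientGroup.eq.1 hg'
    intro h2
    apply h
    have h3 := hf.stab _ h1 _ h2
    rwa [← v2s_act_mul, mul_assoc, mul_inv_cancel, mul_one] at h3
  · exact fun h => ⟨g, rfl, h⟩

theorem v6_two (hf : FrameIso F f H) {x : Pts B (AlgebraicClosure K)} (hx : onPts f x = 0) :
    x + x = 0 := by
  have := hf.hom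
  refine hf.core _ (v6_ker_add hf.hom hx hx) fun g => ?_
  rw [vc_act_add]
  by_cases h : act B g x ∈ H
  · exact H.add_mem h h
  · exact hf.index _ _ (v6_ker_act hf.hom hx g) (v6_ker_act hf.hom hx g) h h

end sign

end Pool.Agent.H.MP_ac3185_nt
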